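import Pool.Agent.N436.DF.Defs

/-!
# Statements of the parts of project DF (helper436, page MP_4006b4_co)
-/

namespace Pool.Agent.N436.DF

open Finset

/-! ## The three elementary modifications -/

/-- lowering a capacity -/
def S_low : Prop := ∀ (V : Type) [DecidableEq V] (P : Par) (H : Hub V) (i : Bool) (x : V),
  Ok P H →
    Ok P (low H i x) ∧
    (∀ Y : Finset V, rho P H Y - (if x ∈ Y then 2 * kap P i else 0) ≤ rho P (low H i x) Y) ∧
    (∀ X Y : Finset V, x ∈ X → X ⊆ Y →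
      rho P (low H i x) Y - rho P (low H i x) X = rho P H Y - rho P H X) ∧
    (∀ (S : Finset V) f p, ColBy (low H i x) S f p → ColBy H S f p ∧
      (x ∈ S → f x = i → load H S f p x + 1 ≤ H.c i x ∧ 0 ≤ load H S f p x)) ∧
    (∀ (S : Finset V) f p, ColBy H S f p → (x ∈ S → f x = i → load H S f p x + 1 ≤ H.c i x) →
      ColBy (low H i x) S f p)

/-- deleting a real edge -/
def S_delr : Prop := ∀ (V : Type) [DecidableEq V] (P : Par) (H : Hub V) (x y : V),
  Ok P H → H.r x y = 1 →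
    Ok P (delr H x y) ∧
    (∀ Y : Finset V, rho P (delr H x y) Y =
      rho P H Y + (if x ∈ Y ∧ y ∈ Y then 2 * P.D else 0)) ∧
    (∀ S : Finset V, eE (delr H x y) S ≤ eE H S) ∧
    (∀ S : Finset V, x ∈ S → y ∈ S → eE (delr H x y) S < eE H S) ∧
    (∀ (S : Finset V) f p, y ∉ S → ColBy H S f p → ColBy (delr H x y) S f p)

/-- adding `t` pair units (`t` may be negative) -/
def S_addm : Prop := ∀ (V : Type) [DecidableEq V] (P : Par) (H : Hub V) (t : ℤ) (x y : V),
  Ok P H → x ≠ y → 0 ≤ H.m x y + t →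
    Ok P (addm H t x y) ∧
    (∀ Y : Finset V, rho P (addm H t x y) Y =
      rho P H Y - (if x ∈ Y ∧ y ∈ Y then 2 * P.a * t else 0)) ∧
    (∀ S : Finset V, t < 0 → x ∈ S → y ∈ S → eM (addm H t x y) S < eM H S) ∧
    (∀ (S : Finset V) f p, y ∉ S → ColBy H S f p → ColBy (addm H t x y) S f p)

/-! ## Transfer of colourings -/

/-- one pair unit deleted, to be paid by `v` -/
def S_trPair : Prop := ∀ (V : Type) [DecidableEq V] (P : Par) (H : Hub V) (S : Finset V) (i : Bool)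
    (v y : V) (f : V → Bool) (p : V → V → ℤ),
  Ok P H → v ∈ S → y ∈ S → v ≠ y → f v = i →
    ColBy (addm (low H i v) (-1) v y) S f p → ∃ p', ColBy H S f p'

/-- one real edge deleted, one unit of colour `i` reserved at both ends; only colourings in which
`v` has the colour `i` -/
def S_trReal : Prop := ∀ (V : Type) [DecidableEq V] (P : Par) (H : Hub V) (S : Finset V) (i : Bool)
    (v y : V) (f : V → Bool) (p : V → V → ℤ),
  Ok P H → v ∈ S → y ∈ S → H.r v y = 1 → f v = i →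
    ColBy (delr (low (low H i v) i y) v y) S f p → ColBy H S f p

/-- one real edge deleted, one unit of both colours reserved at both ends -/
def S_trSoft : Prop := ∀ (V : Type) [DecidableEq V] (P : Par) (H : Hub V) (S : Finset V)
    (v y : V),
  Ok P H → v ∈ S → y ∈ S → H.r v y = 1 →
    Col (delr (low (low (low (low H true v) false v) true y) false y) v y) S → Col H S

/-! ## The kill system -/

/-- a colouring of `X` and a colouring of the kill system on the rest give a colouring -/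
def S_killCol : Prop := ∀ (V : Type) [DecidableEq V] (P : Par) (H : Hub V) (S X : Finset V)
    (f : V → Bool) (p : V → V → ℤ),
  Ok P H → X ⊆ S → ColBy H X f p → Col (kill H X f) (S \ X) →
    ∃ f' p', ColBy H S f' p' ∧ ∀ x ∈ X, f' x = f x

/-- potential of the kill system -/
def S_killRho : Prop := ∀ (V : Type) [DecidableEq V] (P : Par) (H : Hub V) (X : Finset V)
    (f : V → Bool),
  Ok P H →
    Ok P (kill H X f) ∧
    (∀ Y : Finset V, Disjoint Y X →
      rho P (kill H X f) Y = rho P H (Y ∪ X) - rho P H X + 2 * ∑ v ∈ Y, sav P H X f v) ∧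
    (∀ v, 0 ≤ nr H X f true v ∧ 0 ≤ nr H X f false v ∧ 0 ≤ pr H X f true v ∧
      0 ≤ pr H X f false v ∧ 0 ≤ t1 H X f v ∧ 0 ≤ sav P H X f v) ∧
    (∀ v, P.d * t1 H X f v ≤ sav P H X f v) ∧
    (∀ v, 1 ≤ nr H X f true v →
      P.d * t1 H X f v + P.a * pr H X f false v ≤ sav P H X f v) ∧
    (∀ v, 1 ≤ nr H X f true v →
      P.d * t1 H X f v + (P.D - P.d) * (nr H X f true v - 1) ≤ sav P H X f v) ∧
    (∀ v, H.c false v = 0 → 1 ≤ nr H X f false v → P.D - P.b ≤ sav P H X f v)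

/-- the improvement when `x0 ∈ X` is not saturated and has an edge to `v1` outside `X` -/
def S_K1 : Prop := ∀ (V : Type) [DecidableEq V] (P : Par) (H : Hub V) (S X : Finset V)
    (f : V → Bool) (p : V → V → ℤ) (x0 v1 : V),
  Ok P H → X ⊆ S → ColBy H X f p → x0 ∈ X → v1 ∈ S \ X → Adj H x0 v1 →
    load H X f p x0 + 1 ≤ H.c (f x0) x0 →
    ∃ H' : Hub V, Ok P H' ∧ (∀ u ∈ S \ X, ∀ v ∈ S \ X, H'.r u v = H.r u v) ∧
      (Col H' (S \ X) → Col H S) ∧
      ∀ Y, Y ⊆ S \ X →
        rho P H (Y ∪ X) - rho P H X + (if v1 ∈ Y then 2 * P.a else 0) ≤ rho P H' Y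

/-! ## Minimal counterexamples (all parameters) -/

def S_ex : Prop := ∀ (V : Type) [DecidableEq V] (P : Par),
  (∀ (H : Hub V) (S : Finset V), ¬ MinCex P H S) →
    ∀ (H : Hub V) (S : Finset V), Ok P H → Hyp P H S → Col H S

/-- if `X` is coloured, some nonempty `Y` outside has too small potential in the kill system -/
def S_KF : Prop := ∀ (V : Type) [DecidableEq V] (P : Par) (H : Hub V) (S X : Finset V)
    (f : V → Bool) (p : V → V → ℤ),
  MinCex P H S → X ⊆ S → X.Nonempty → ColBy H X f p →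
    ∃ Y, Y ⊆ S \ X ∧ Y.Nonempty ∧
      rho P H (Y ∪ X) - rho P H X + 2 * ∑ v ∈ Y, sav P H X f v ≤ -(2 * P.b)

def S_K1F : Prop := ∀ (V : Type) [DecidableEq V] (P : Par) (H : Hub V) (S X : Finset V)
    (f : V → Bool) (p : V → V → ℤ) (x0 v1 : V),
  MinCex P H S → X ⊆ S → ColBy H X f p → x0 ∈ X → v1 ∈ S \ X → Adj H x0 v1 →
    load H X f p x0 + 1 ≤ H.c (f x0) x0 →
    ∃ Y, Y ⊆ S \ X ∧ Y.Nonempty ∧
      rho P H (Y ∪ X) - rho P H X + (if v1 ∈ Y then 2 * P.a else 0) ≤ -(2 * P.b)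

def S_A0 : Prop := ∀ (V : Type) [DecidableEq V] (P : Par) (H : Hub V) (S X : Finset V),
  MinCex P H S → X ⊆ S → X.Nonempty → X ≠ S → rho P H S + 2 * P.b ≤ rho P H X

def S_conn : Prop := ∀ (V : Type) [DecidableEq V] (P : Par) (H : Hub V) (S X : Finset V),
  MinCex P H S → X ⊆ S → X.Nonempty → X ≠ S → ∃ x ∈ X, ∃ v ∈ S \ X, Adj H x v

def S_A1 : Prop := ∀ (V : Type) [DecidableEq V] (P : Par) (H : Hub V) (S X : Finset V),
  MinCex P H S → X ⊆ S → X.Nonempty → X ≠ S → rho P H S + 2 * P.b + 2 * P.d ≤ rho P H X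

def S_two : Prop := ∀ (V : Type) [DecidableEq V] (P : Par) (H : Hub V) (S : Finset V),
  MinCex P H S → ∀ v ∈ S, ∃ w ∈ S, w ≠ v

def S_caps : Prop := ∀ (V : Type) [DecidableEq V] (P : Par) (H : Hub V) (S : Finset V),
  MinCex P H S → ∀ v ∈ S, ∀ i, 0 ≤ H.c i v

/-- no vertex is pendant at a real edge -/
def S_pend : Prop := ∀ (V : Type) [DecidableEq V] (P : Par) (H : Hub V) (S : Finset V) (w u : V),
  MinCex P H S → w ∈ S → u ∈ S → H.r w u = 1 → (∀ x ∈ S, x ≠ u → H.r w x = 0) →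
    (∀ x ∈ S, H.m w x = 0) → False

/-- no vertex has exactly two real edges and nothing else -/
def S_Z : Prop := ∀ (V : Type) [DecidableEq V] (P : Par) (H : Hub V) (S : Finset V) (w u u' : V),
  MinCex P H S → w ∈ S → u ∈ S → u' ∈ S → u ≠ u' → H.r w u = 1 → H.r w u' = 1 →
    (∀ x ∈ S, x ≠ u → x ≠ u' → H.r w x = 0) → (∀ x ∈ S, H.m w x = 0) →
    1 ≤ H.c true w → 1 ≤ H.c false w → False

/-- only pair edges -/
def S_E0 : Prop := ∀ (V : Type) [DecidableEq V] (P : Par) (H : Hub V) (S : Finset V),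
  Ok P H → Hyp P H S → (∀ v ∈ S, ∀ i, 0 ≤ H.c i v) → (∀ u ∈ S, ∀ v ∈ S, H.r u v = 0) → Col H S

/-! ## The top set (parameters in the range) -/

/-- a real edge `yz` between `Y` and `S \ Y` -/
def RB {V : Type} [DecidableEq V] (H : Hub V) (S Y : Finset V) : Prop :=
  ∃ y ∈ Y, ∃ z ∈ S \ Y, H.r y z = 1

/-- `X` has the smallest potential among the subsets of `S` with a real boundary edge, and is
largest among those; `uw` is a real boundary edge of `X`. -/
structure Top {V : Type} [DecidableEq V] (P : Par) (H : Hub V) (S X : Finset V) (u w : V) :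
    Prop where
  rng : Rng P
  mc : MinCex P H S
  sub : X ⊆ S
  hu : u ∈ X
  hw : w ∈ S \ X
  huw : H.r u w = 1
  le_a : rho P H X ≤ 2 * P.a
  min : ∀ Y, Y ⊆ S → RB H S Y → rho P H X ≤ rho P H Y
  max : ∀ Y, X ⊂ Y → Y ⊆ S → RB H S Y → rho P H X < rho P H Y

def S_soft : Prop := ∀ (V : Type) [DecidableEq V] (P : Par) (H : Hub V) (S : Finset V) (u w : V),
  Rng P → MinCex P H S → u ∈ S → w ∈ S → H.r u w = 1 →
    ∃ X, X ⊆ S ∧ RB H S X ∧ rho P H X ≤ 2 * P.a

def S_top : Prop := ∀ (V : Type) [DecidableEq V] (P : Par) (H : Hub V) (S : Finset V),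
  Rng P → MinCex P H S → ∃ X u w, Top P H S X u w

/-- proper subsets are fine in the kill system -/
def S_prop : Prop := ∀ (V : Type) [DecidableEq V] (P : Par) (H : Hub V) (S X Y : Finset V)
    (u w : V) (f : V → Bool),
  Top P H S X u w → Y ⊆ S \ X → Y.Nonempty → Y ≠ S \ X → -(2 * P.b) < rho P (kill H X f) Y

/-- the whole of `S \ X` is the obstacle -/
def S_T : Prop := ∀ (V : Type) [DecidableEq V] (P : Par) (H : Hub V) (S X : Finset V) (u w : V)
    (f : V → Bool) (p : V → V → ℤ),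
  Top P H S X u w → ColBy H X f p →
    rho P H S + 2 * P.b + 2 * ∑ v ∈ S \ X, sav P H X f v ≤ rho P H X

/-- every boundary vertex of `X` is saturated in every colouring of `X` -/
def S_sat : Prop := ∀ (V : Type) [DecidableEq V] (P : Par) (H : Hub V) (S X : Finset V) (u w : V)
    (f : V → Bool) (p : V → V → ℤ) (x v : V),
  Top P H S X u w → ColBy H X f p → x ∈ X → v ∈ S \ X → Adj H x v →
    H.c (f x) x ≤ load H X f p x

/-- every boundary vertex can get every colour -/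
def S_force1 : Prop := ∀ (V : Type) [DecidableEq V] (P : Par) (H : Hub V) (S X : Finset V)
    (u w : V) (x v : V) (i : Bool),
  Top P H S X u w → x ∈ X → v ∈ S \ X → Adj H x v → ∃ f p, ColBy H X f p ∧ f x = i

/-- `u` and another boundary vertex can both get the colour 1 -/
def S_force2 : Prop := ∀ (V : Type) [DecidableEq V] (P : Par) (H : Hub V) (S X : Finset V)
    (u w : V) (x v : V),
  Top P H S X u w → 2 * P.b < rho P H X → x ∈ X → v ∈ S \ X → Adj H x v →
    ∃ f p, ColBy H X f p ∧ f u = true ∧ f x = true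

/-- prepayment of an edge at `w` -/
def S_prepay : Prop := ∀ (V : Type) [DecidableEq V] (P : Par) (H : Hub V) (S X : Finset V)
    (u w : V) (f : V → Bool) (p : V → V → ℤ),
  Top P H S X u w → ColBy H X f p → f u = true → t1 H X f w = 1 → S \ X ≠ {w} →
    (∀ Y, Y ⊆ S \ X → w ∈ Y → Y ≠ S \ X →
      rho P H X < rho P H (Y ∪ X) + 2 * (P.d * ∑ v ∈ Y, t1 H X f v)) →
    rho P H X < rho P H S + 2 * P.b + 2 * (P.d * ∑ v ∈ S \ X, t1 H X f v) + 2 * P.d → False

/-- Case A, `S \ X = {w}` -/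
def S_small : Prop := ∀ (V : Type) [DecidableEq V] (P : Par) (H : Hub V) (S X : Finset V)
    (u w : V),
  Top P H S X u w → S \ X = {w} → rho P H X < rho P H S + 2 * P.b + 4 * P.d → False

def S_caseA : Prop := ∀ (V : Type) [DecidableEq V] (P : Par) (H : Hub V) (S X : Finset V)
    (u w : V),
  Top P H S X u w → rho P H X < rho P H S + 2 * P.b + 4 * P.d → False

/-- Case B1: a second real boundary edge -/
def S_B1 : Prop := ∀ (V : Type) [DecidableEq V] (P : Par) (H : Hub V) (S X : Finset V)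
    (u w u' w' : V),
  Top P H S X u w → rho P H S + 2 * P.b + 4 * P.d ≤ rho P H X → u' ∈ X → w' ∈ S \ X →
    H.r u' w' = 1 → (u', w') ≠ (u, w) → False

/-- two colourings of `X` that differ at `u` and (up to one pair unit) agree on the rest of the
boundary -/
def S_P3 : Prop := ∀ (V : Type) [DecidableEq V] (P : Par) (H : Hub V) (S X : Finset V)
    (u w : V) (f1 f2 : V → Bool) (p1 p2 : V → V → ℤ),
  Top P H S X u w → (∀ x ∈ X, ∀ v ∈ S \ X, H.r x v = 1 → x = u ∧ v = w) →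
    ColBy H X f1 p1 → ColBy H X f2 p2 → f1 u = true → f2 u = false →
    ∑ x ∈ X with f1 x ≠ f2 x, ∑ v ∈ S \ X, H.m x v ≤ 1 → False

/-- Case B2: `uw` is the only real boundary edge -/
def S_B2 : Prop := ∀ (V : Type) [DecidableEq V] (P : Par) (H : Hub V) (S X : Finset V)
    (u w : V),
  Top P H S X u w → (∀ x ∈ X, ∀ v ∈ S \ X, H.r x v = 1 → x = u ∧ v = w) →
    2 * P.b < rho P H X → False

/-! ## Main theorem and graphs -/

def S_main : Prop := ∀ (V : Type) [DecidableEq V] (P : Par) (H : Hub V) (S : Finset V),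
  Rng P → Ok P H → Hyp P H S → Col H S

/-- a `(Δ_{d₁}, Δ_{d₂})`-colouring of `G`: `A` induces maximum degree at most `d₁`, its complement
maximum degree at most `d₂` -/
def Colourable (d₁ d₂ : ℕ) {V : Type} (G : SimpleGraph V) : Prop :=
  ∃ A : Set V, (∀ v ∈ A, (G.neighborSet v ∩ A).ncard ≤ d₁) ∧
    (∀ v ∈ Aᶜ, (G.neighborSet v ∩ Aᶜ).ncard ≤ d₂)

/-- `G` is `(Δ_{d₁}, Δ_{d₂})`-critical -/
structure Critical (d₁ d₂ : ℕ) {V : Type} (G : SimpleGraph V) : Prop where
  not_col : ¬ Colourable d₁ d₂ G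
  sub_col : ∀ H : G.Subgraph, H ≠ ⊤ → Colourable d₁ d₂ H.coe

def S_graph : Prop := S_main → ∀ (d₁ d₂ : ℕ), 2 ≤ d₁ → 3 * d₁ + 2 ≤ 2 * d₂ →
  ∀ (V : Type) [Fintype V] (G : SimpleGraph V), Critical d₁ d₂ G →
    (2 - ((d₂ : ℚ) + 2) / (((d₁ : ℚ) + 2) * ((d₂ : ℚ) + 1))) * (Fintype.card V : ℚ)
      + 1 / ((d₂ : ℚ) + 1) ≤ (G.edgeSet.ncard : ℚ)

end Pool.Agent.N436.DF
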