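import Pool.Agent.N436.DF.Asm
import Pool.Agent.N403.DF.Low
import Pool.Agent.N543.DF.Delr
import Pool.Agent.N878.DF.Addm
import Pool.Agent.N2.DF.Tr
import Pool.Agent.N495.DF.KillCol
import Pool.Agent.N897.DF.KillRho
import Pool.Agent.N717.DF.K1
import Pool.Agent.N787.DF.Ex
import Pool.Agent.N644.DF.Pot
import Pool.Agent.N749.DF.Caps
import Pool.Agent.N749.DF.PendZ
import Pool.Agent.N862.DF.E0
import Pool.Agent.N767.DF.Top
import Pool.Agent.N547.DF.P3
import Pool.Agent.N547.DF.Prepay
import Pool.Agent.N547.DF.TopSet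
import Pool.Agent.N433.DF.Small
import Pool.Agent.N342.DF.B2
import Pool.Agent.N264.DF.Graph

/-! Assembly of project DF (co-authors: helpers 403, 543, 878, 2, 495, 897, 717, 787, 644, 749,
862, 767, 547, 433, 342, 264). -/

namespace Pool.Agent.N436.DF

theorem low_h : S_low := Pool.Agent.N403.DF.low_ok
theorem delr_h : S_delr := Pool.Agent.N543.DF.Delr.delr_ok
theorem addm_h : S_addm := Pool.Agent.N878.DF.addm_ok
theorem trPair_h : S_trPair := Pool.Agent.N2.DF.trPair
theorem trReal_h : S_trReal := Pool.Agent.N2.DF.trReal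
theorem trSoft_h : S_trSoft := Pool.Agent.N2.DF.trSoft
theorem killCol_h : S_killCol := Pool.Agent.N495.DF.killCol
theorem killRho_h : S_killRho := Pool.Agent.N897.DF.KillRho.killRho
theorem k1_h : S_K1 := Pool.Agent.N717.DF.k1 low_h delr_h addm_h trPair_h trReal_h killCol_h killRho_h
theorem ex_h : S_ex := Pool.Agent.N787.DF.ex
theorem kf_h : S_KF := Pool.Agent.N787.DF.kf killCol_h killRho_h
theorem k1f_h : S_K1F := Pool.Agent.N787.DF.k1f k1_h
theorem two_h : S_two := Pool.Agent.N644.DF.Pot.two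
theorem a0_h : S_A0 := Pool.Agent.N644.DF.Pot.a0 killRho_h kf_h
theorem conn_h : S_conn := Pool.Agent.N644.DF.Pot.conn
theorem a1_h : S_A1 := Pool.Agent.N644.DF.Pot.a1 low_h killRho_h kf_h k1f_h a0_h conn_h
theorem caps_h : S_caps :=
  Pool.Agent.N749.DF.caps low_h delr_h addm_h trPair_h trReal_h two_h a0_h a1_h conn_h
theorem pend_h : S_pend := Pool.Agent.N749.DF.pend caps_h
theorem z_h : S_Z := Pool.Agent.N749.DF.z addm_h
theorem e0_h : S_E0 := Pool.Agent.N862.DF.e0
theorem soft_h : S_soft := Pool.Agent.N767.DF.soft low_h delr_h trSoft_h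
theorem top_h : S_top := Pool.Agent.N767.DF.top e0_h caps_h soft_h
theorem prop_h : S_prop := Pool.Agent.N547.DF.TopSet.prop killRho_h a1_h
theorem T_h : S_T := Pool.Agent.N547.DF.TopSet.tt killRho_h kf_h a1_h
theorem sat_h : S_sat := Pool.Agent.N547.DF.TopSet.sat k1f_h a1_h
theorem force1_h : S_force1 := Pool.Agent.N547.DF.TopSet.force1 low_h a1_h sat_h
theorem force2_h : S_force2 := Pool.Agent.N547.DF.TopSet.force2 low_h a1_h sat_h
theorem prepay_h : S_prepay :=
  Pool.Agent.N547.DF.Prepay.prepay low_h delr_h addm_h trPair_h trReal_h killCol_h killRho_h pend_h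
    prop_h T_h
theorem small_h : S_small := Pool.Agent.N433.DF.small killRho_h kf_h caps_h T_h force1_h z_h
theorem caseA_h : S_caseA :=
  Pool.Agent.N433.DF.caseA killRho_h a1_h T_h force1_h prepay_h small_h
theorem b1_h : S_B1 := Pool.Agent.N433.DF.b1 killRho_h a1_h T_h force2_h prepay_h
theorem p3_h : S_P3 := Pool.Agent.N547.DF.P3.p3 a0_h
theorem b2_h : S_B2 := Pool.Agent.N342.DF.b2 killRho_h T_h force1_h force2_h p3_h

/-- Theorem A: in the range `j ≥ 2`, `2k ≥ 3j+2` (encoded in `Rng`) every sparse hub system is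
colourable. -/
theorem main_h : S_main := main_of ex_h top_h caseA_h b1_h b2_h

theorem graph_h : S_graph := Pool.Agent.N264.DF.graph killCol_h killRho_h

end Pool.Agent.N436.DF
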