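import Pool.Agent.N436.DF.Stm

/-!
# Project DF, second batch: the whole range `d₁ ≥ 2`, `d₂ ≥ d₁ + 2`
-/

namespace Pool.Agent.N436.DF

open Finset

/-- The range `b ≥ d` (that is `k ≤ 2j+2`), `dk ≥ 2b` (that is `d ≥ 2`) and `2(a+b) ≤ D`. -/
structure Rng2 (P : Par) : Prop where
  hsoft : 2 * (P.a + P.b) ≤ P.D
  hdb : P.d ≤ P.b
  h2b : 2 * P.b ≤ P.d * P.k

/-! ## The uncrossing lemma -/

/-- twice (vertex weights minus edge weights) -/
def FF {V : Type} (g : V → ℤ) (e : V → V → ℤ) (Y : Finset V) : ℤ :=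
  2 * ∑ v ∈ Y, g v - ∑ u ∈ Y, ∑ v ∈ Y, e u v

/-- many sets of small potential that cover all units -/
def S_dlem : Prop := ∀ (V : Type) [DecidableEq V] (a b d δ : ℤ) (g μ : V → ℤ) (e : V → V → ℤ)
    (T : Finset V) (A : V → Finset V),
  1 ≤ d → 1 ≤ b → a = b + d → 0 ≤ δ → δ < 2 * b →
  (∀ u v, e u v = e v u) → (∀ u v, e u v = 0 ∨ a ≤ e u v) → (∀ v, 0 ≤ μ v) →
  (∀ Y, Y ⊆ T → 0 ≤ FF g e Y) →
  (∀ Y, Y ⊂ T → FF g e T + 2 * a * (1 - ∑ v ∈ T \ Y, μ v) ≤ FF g e Y) →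
  2 * (d * ∑ v ∈ T, μ v) - δ ≤ FF g e T →
  δ < d * ∑ v ∈ T, μ v →
  (∀ q ∈ T, 1 ≤ μ q → q ∈ A q ∧ A q ⊆ T ∧ FF g e (A q) ≤ 2 * d) → False

/-! ## The key lemma -/

/-- the potential of `Y` without the savings `θ` (twice) -/
def F0 {V : Type} [DecidableEq V] (P : Par) (H : Hub V) (θ : V → ℤ) (Y : Finset V) : ℤ :=
  rho P H Y - 2 * ∑ v ∈ Y, θ v

/-- `w` is forced to have the colour 2 and has only pair edges into `T`; all subsets of
`insert w T` containing `w`, other than the whole set, exceed the whole set by at least `2a`. -/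
structure St {V : Type} [DecidableEq V] (P : Par) (H : Hub V) (T : Finset V) (w : V) (θ : V → ℤ)
    (s δ : ℤ) : Prop where
  ok : Ok P H
  hw : w ∉ T
  cw : H.c true w = -1
  rw0 : ∀ q ∈ T, H.r w q = 0
  θnn : ∀ v, 0 ≤ θ v
  nn : ∀ Y, Y ⊆ T → 0 ≤ F0 P H θ Y
  cap : s ≤ H.c false w
  prop : ∀ Y, Y ⊂ T → F0 P H θ T + 2 * P.a * (1 - ∑ v ∈ T \ Y, H.m w v) ≤ F0 P H θ Y
  tot : F0 P H θ T + 2 * P.b * s - 2 * P.a * ∑ v ∈ T, H.m w v = -(2 * P.b) - δ
  hδ : δ < P.d * (s + 1)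
  hδb : δ < 2 * P.b

/-- the induction hypothesis: all sparse systems with the same real edges on subsets of
`insert w T` are colourable -/
def IHs {V : Type} [DecidableEq V] (P : Par) (H : Hub V) (T : Finset V) (w : V) : Prop :=
  ∀ (H' : Hub V) (S' : Finset V), Ok P H' → H'.r = H.r → S' ⊆ insert w T → Hyp P H' S' → Col H' S'

/-- case `δ < 0` -/
def S_KLa : Prop := ∀ (V : Type) [DecidableEq V] (P : Par) (H : Hub V) (T : Finset V) (w : V)
    (θ : V → ℤ) (s δ : ℤ), St P H T w θ s δ → δ < 0 → Hyp P H (insert w T)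

/-- case of few units -/
def S_KLb : Prop := ∀ (V : Type) [DecidableEq V] (P : Par) (H : Hub V) (T : Finset V) (w : V)
    (θ : V → ℤ) (s δ : ℤ), St P H T w θ s δ → IHs P H T w → 0 ≤ δ → ∑ v ∈ T, H.m w v ≤ s →
    Col H (insert w T)

/-- there is a unit that can be killed -/
def S_KLc : Prop := ∀ (V : Type) [DecidableEq V] (P : Par) (H : Hub V) (T : Finset V) (w : V)
    (θ : V → ℤ) (s δ : ℤ), St P H T w θ s δ → 0 ≤ δ → s + 1 ≤ ∑ v ∈ T, H.m w v →
    ∃ q ∈ T, 1 ≤ H.m w q ∧ ∀ A, A ⊆ T → q ∈ A → 2 * P.d < F0 P H θ A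

/-- `q` cannot have the colour 1 -/
def S_KLd : Prop := ∀ (V : Type) [DecidableEq V] (P : Par) (H : Hub V) (T : Finset V) (w : V)
    (θ : V → ℤ) (s δ : ℤ) (q : V), St P H T w θ s δ → IHs P H T w → q ∈ T → 1 ≤ H.m w q →
    H.c true q = -1 → Col H (insert w T)

/-- the step: kill one unit at `q` -/
def S_KLe : Prop := ∀ (V : Type) [DecidableEq V] (P : Par) (H : Hub V) (T : Finset V) (w : V)
    (θ : V → ℤ) (s δ : ℤ) (q : V), St P H T w θ s δ → IHs P H T w → q ∈ T → 1 ≤ H.m w q →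
    0 ≤ H.c true q → (∀ A, A ⊆ T → q ∈ A → 2 * P.d < F0 P H θ A) →
    ∃ (H' : Hub V) (T' : Finset V) (θ' : V → ℤ) (s' δ' : ℤ),
      St P H' T' w θ' s' δ' ∧ T' ⊆ T ∧ H'.r = H.r ∧
      ∑ v ∈ T', H'.m w v < ∑ v ∈ T, H.m w v ∧
      (Col H' (insert w T') → Col H (insert w T))

/-- the key lemma -/
def S_KL : Prop := ∀ (V : Type) [DecidableEq V] (P : Par) (H : Hub V) (T : Finset V) (w : V)
    (θ : V → ℤ) (s δ : ℤ), St P H T w θ s δ → IHs P H T w → Col H (insert w T)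

/-! ## The top set for `Rng2` -/

/-- as `Top`, for the range `Rng2` -/
structure Top2 {V : Type} [DecidableEq V] (P : Par) (H : Hub V) (S X : Finset V) (u w : V) :
    Prop where
  rng : Rng2 P
  mc : MinCex P H S
  sub : X ⊆ S
  hu : u ∈ X
  hw : w ∈ S \ X
  huw : H.r u w = 1
  le_a : rho P H X ≤ 2 * P.a
  min : ∀ Y, Y ⊆ S → RB H S Y → rho P H X ≤ rho P H Y
  max : ∀ Y, X ⊂ Y → Y ⊆ S → RB H S Y → rho P H X < rho P H Y

def S_top2 : Prop := ∀ (V : Type) [DecidableEq V] (P : Par) (H : Hub V) (S : Finset V),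
  Rng2 P → MinCex P H S → ∃ X u w, Top2 P H S X u w

def S_prop2 : Prop := ∀ (V : Type) [DecidableEq V] (P : Par) (H : Hub V) (S X Y : Finset V)
    (u w : V) (f : V → Bool),
  Top2 P H S X u w → Y ⊆ S \ X → Y.Nonempty → Y ≠ S \ X → -(2 * P.b) < rho P (kill H X f) Y

def S_T2 : Prop := ∀ (V : Type) [DecidableEq V] (P : Par) (H : Hub V) (S X : Finset V) (u w : V)
    (f : V → Bool) (p : V → V → ℤ),
  Top2 P H S X u w → ColBy H X f p →
    rho P H S + 2 * P.b + 2 * ∑ v ∈ S \ X, sav P H X f v ≤ rho P H X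

def S_force12 : Prop := ∀ (V : Type) [DecidableEq V] (P : Par) (H : Hub V) (S X : Finset V)
    (u w : V) (x v : V) (i : Bool),
  Top2 P H S X u w → x ∈ X → v ∈ S \ X → Adj H x v → ∃ f p, ColBy H X f p ∧ f x = i

/-- savings at a vertex with a neighbour coloured 1 and capacity -1 in the kill system etc. -/
def S_sav2 : Prop := ∀ (V : Type) [DecidableEq V] (P : Par) (H : Hub V) (X : Finset V)
    (f : V → Bool) (v : V),
  Ok P H →
    (1 ≤ nr H X f true v → P.D * (nr H X f true v) - P.a * (H.c true v + 1)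
      + P.d * pr H X f true v + P.a * pr H X f false v ≤ sav P H X f v) ∧
    (1 ≤ nr H X f false v → P.D * (nr H X f false v) - P.b * (H.c false v + 1)
      ≤ sav P H X f v) ∧
    (1 ≤ nr H X f true v → 1 ≤ nr H X f false v →
      P.D * (nr H X f true v + nr H X f false v) + P.a * (pr H X f true v + pr H X f false v)
        - P.a * (H.c true v + 1) - P.b * (H.c false v + 1) ≤ sav P H X f v) ∧
    (1 ≤ nr H X f true v → pr H X f true v ≤ H.c false v → nr H X f false v = 0 →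
      sav P H X f v = P.D * (nr H X f true v) - P.a * (H.c true v + 1)
        + P.d * pr H X f true v + P.a * pr H X f false v)

/-- `S \ X` is not a single vertex: then `w` has exactly one real edge in `S`, etc. -/
def S_leaf2 : Prop := ∀ (V : Type) [DecidableEq V] (P : Par) (H : Hub V) (S X : Finset V)
    (u w : V) (f : V → Bool) (p : V → V → ℤ),
  Top2 P H S X u w → S \ X ≠ {w} → ColBy H X f p → f u = true →
    nr H X f true w = 1 ∧ nr H X f false w = 0 ∧ pr H X f false w = 0 ∧ H.c true w = P.j ∧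
    P.k - 1 ≤ H.c false w ∧ pr H X f true w ≤ H.c false w ∧ (∀ q ∈ S \ X, H.r w q = 0)

/-- the start of the recursion -/
def S_base2 : Prop := ∀ (V : Type) [DecidableEq V] (P : Par) (H : Hub V) (S X : Finset V)
    (u w : V) (f : V → Bool) (p : V → V → ℤ),
  Top2 P H S X u w → S \ X ≠ {w} → ColBy H X f p → f u = true →
    ∃ s δ, St P (kill H X f) ((S \ X).erase w) w (sav P H X f) s δ

/-- `S \ X = {w}` -/
def S_small2 : Prop := ∀ (V : Type) [DecidableEq V] (P : Par) (H : Hub V) (S X : Finset V)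
    (u w : V), Top2 P H S X u w → S \ X = {w} → False

def S_fin2 : Prop := ∀ (V : Type) [DecidableEq V] (P : Par) (H : Hub V) (S X : Finset V)
    (u w : V), ¬ Top2 P H S X u w

def S_main2 : Prop := ∀ (V : Type) [DecidableEq V] (P : Par) (H : Hub V) (S : Finset V),
  Rng2 P → Ok P H → Hyp P H S → Col H S

def S_graph2 : Prop := S_main → S_main2 → ∀ (d₁ d₂ : ℕ), 2 ≤ d₁ → d₁ + 2 ≤ d₂ →
  ∀ (V : Type) [Fintype V] (G : SimpleGraph V), Critical d₁ d₂ G →
    (2 - ((d₂ : ℚ) + 2) / (((d₁ : ℚ) + 2) * ((d₂ : ℚ) + 1))) * (Fintype.card V : ℚ)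
      + 1 / ((d₂ : ℚ) + 1) ≤ (G.edgeSet.ncard : ℚ)

end Pool.Agent.N436.DF
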