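import Pool.Agent.N436.DF.Asm2
import Pool.Agent.N199.DF.Dlem
import Pool.Agent.N678.DF.KLabd
import Pool.Agent.N618.DF.KLc
import Pool.Agent.N314.DF.KLe
import Pool.Agent.N701.DF.Top2
import Pool.Agent.N163.DF.Sav2
import Pool.Agent.N655.DF.Leaf2
import Pool.Agent.N690.DF.Base2
import Pool.Agent.N721.DF.Small2
import Pool.Agent.N543.DF.Graph2

/-! Assembly of project DG: the full range `d₁ ≥ 2`, `d₂ ≥ d₁ + 2` (co-authors: helpers 199, 678,
618, 314, 701, 163, 655, 690, 721, 543). -/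

namespace Pool.Agent.N436.DF

theorem kl_h : S_KL :=
  kl_of Pool.Agent.N678.DF.kla Pool.Agent.N678.DF.klb
    (Pool.Agent.N618.DF.klc Pool.Agent.N199.DF.dlem) Pool.Agent.N678.DF.kld
    (Pool.Agent.N314.DF.kle low_h addm_h killCol_h killRho_h trPair_h)

theorem leaf2_h : S_leaf2 :=
  Pool.Agent.N655.DF.leaf2 Pool.Agent.N163.DF.sav2 Pool.Agent.N701.DF.prop2 Pool.Agent.N701.DF.t2
    Pool.Agent.N701.DF.force12

theorem base2_h : S_base2 := Pool.Agent.N690.DF.base2 leaf2_h

theorem small2_h : S_small2 :=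
  Pool.Agent.N721.DF.small2 Pool.Agent.N163.DF.sav2 Pool.Agent.N701.DF.t2 Pool.Agent.N701.DF.force12

theorem fin2_h : S_fin2 :=
  fin2_of base2_h small2_h Pool.Agent.N701.DF.force12 kl_h killCol_h killRho_h

/-- Theorem B: for `j ≥ 2`, `k ≥ j + 2` (encoded in `Rng2`) every sparse hub system is
colourable. -/
theorem main2_h : S_main2 := main2_of ex_h Pool.Agent.N701.DF.top2 fin2_h

theorem graph2_h : S_graph2 := Pool.Agent.N543.DF.Graph2.graph2 killCol_h killRho_h graph_h

end Pool.Agent.N436.DF
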