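import Pool.Agent.N436.DF.Stm3

namespace Pool.Agent.N436.DF

open Finset

/-- all RB sets have potential at least 8 -/
def A3_rb8 : Prop := ∀ (V : Type) [DecidableEq V] (H : Hub V) (S : Finset V),
  MinCex P13 H S → RBge H S 8

def A3_rb9 : Prop := ∀ (V : Type) [DecidableEq V] [Infinite V] (H : Hub V) (S : Finset V),
  MinCex P13 H S → RBge H S 9

def A3_rb2 : Prop := ∀ (V : Type) [DecidableEq V] (H : Hub V) (S : Finset V),
  MinCex P13 H S → RBge H S 10 → Cl5 H S → ∀ Y, Y ⊆ S → RB2 H S Y → 14 ≤ hp H Y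

theorem rb8_of (h5 : S3_rb5) (ha : S3_rb6a) (hb : S3_rb6b) (h8 : S3_rb8) : A3_rb8 := by
  classical
  intro V _ H S hm
  refine h8 V H S hm ?_
  have h5' := h5 V H S hm
  by_contra hcon
  unfold RBge at hcon
  push Not at hcon
  obtain ⟨Y, hY, hYrb, hYlt⟩ := hcon
  have hY5 : hp H Y = 5 := by
    have := h5' Y hY hYrb
    omega
  obtain ⟨X, hX, hXmax⟩ := Finset.exists_max_image
    (S.powerset.filter (fun X => RB H S X ∧ hp H X = 5)) Finset.card
    ⟨Y, by simp [hY, hYrb, hY5]⟩
  simp only [Finset.mem_filter, Finset.mem_powerset] at hX hXmax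
  obtain ⟨hXS, hXrb, hX5⟩ := hX
  have hmax : ∀ Y, X ⊂ Y → Y ⊆ S → RB H S Y → 6 ≤ hp H Y := by
    intro Z hXZ hZS hZ
    have h1 := h5' Z hZS hZ
    by_contra h2
    have h3 : hp H Z = 5 := by omega
    have h4 := hXmax Z ⟨hZS, hZ, h3⟩
    have h5 := Finset.card_lt_card hXZ
    omega
  obtain ⟨v, hv, w, hw, hvw⟩ := hXrb
  by_cases hone : ∀ x ∈ X, ∀ z ∈ S \ X, H.r x z = 1 → x = v ∧ z = w
  · exact ha V H S X v w hm h5' hXS hX5 hmax hv hw hvw hone
  · push Not at hone
    obtain ⟨x, hx, z, hz, hxz, hne⟩ := hone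
    refine hb V H S X v w x z hm h5' hXS hX5 hmax hv hw hvw hx hz hxz ?_
    intro h
    rw [Prod.mk.injEq] at h
    exact hne h.1.symm h.2.symm

theorem cl5_of (hb : S3_base) (hC : S3_clC) (h4 : S3_cl4) : S3_cl5 := by
  intro V _ _ H S hm hr6 C hCS hCne hcl hu
  obtain ⟨u, hu, w, hw, huw⟩ := hu
  rw [Finset.mem_sdiff] at hu
  have hCS' : C ≠ S := by
    intro h
    exact hu.2 (h ▸ hu.1)
  have h3 := ((hb V H hm.ok).2.2.2.2 S hm).2 C hCS hCne hCS'
  by_contra hcon
  push Not at hcon
  have hcases : hp H C = 3 ∨ hp H C = 4 := by omega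
  rcases hcases with h | h
  · exact hu.2 (hC V H S C ⟨hm, hCS, hCne, hCS', hcl, h⟩ u hu.1 w hw huw)
  · obtain ⟨D, hD, hD3⟩ := h4 V H S C hm hr6 hCS hCne hCS' hcl h
    exact hu.2 (hD (hC V H S D hD3 u hu.1 w hw huw))

theorem rb9_of (hb : S3_base) (h8 : A3_rb8) (hC : S3_clC) (h4 : S3_cl4) (hout : S3_out)
    (hm0 : S3_m0) (hm3 : S3_m3) (hm2 : S3_m2) (hst : S3_m1st) (hbeta : S3_m1beta)
    (hc5 : S3_m1c5) (hfin : S3_m1fin) : A3_rb9 := by
  classical
  intro V _ _ H S hm
  have key : ∀ (k : ℕ) (H : Hub V) (X : Finset V), MinCex P13 H S → X ⊆ S → RB H S X →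
      hp H X = 8 → S.card - X.card = k → False := by
    intro k
    induction k using Nat.strong_induction_on with
    | _ k ih =>
      intro H X hm hXS hXrb hX8 hk
      have hr8 := h8 V H S hm
      have hcardX : X.card ≤ S.card := Finset.card_le_card hXS
      have hmax : ∀ Y, X ⊂ Y → Y ⊆ S → RB H S Y → 9 ≤ hp H Y := by
        intro Y hXY hYS hYrb
        have h1 := hr8 Y hYS hYrb
        by_contra h2
        have h3 : hp H Y = 8 := by omega
        have h4 := Finset.card_lt_card hXY
        have h5 := Finset.card_le_card hYS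
        exact ih (S.card - Y.card) (by omega) H Y hm hYS hYrb h3 rfl
      have hr6 : RBge H S 6 := fun Y hY hYr => by
        have := hr8 Y hY hYr
        omega
      have hcl5 : Cl5 H S := cl5_of hb hC h4 V H S hm hr6
      have htop : Top8 H S X := ⟨hm, hr8, hcl5, hXS, hXrb, hX8, hmax⟩
      have hn2 := hm0 V H S X htop
      obtain ⟨v, hv, w, hw, hvw⟩ := hXrb
      by_cases hone : ∀ x ∈ X, ∀ z ∈ S \ X, H.r x z = 1 → x = v ∧ z = w
      · have hM1 : M1 H S X v w := by
          refine ⟨htop, hv, hw, hvw, hone, ?_, ?_⟩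
          · intro Z hZ u hu y hy huy
            exact hC V H S Z hZ u hu y hy huy
          · intro Z hZ hXZ
            by_contra hgt
            push Not at hgt
            obtain ⟨H', X', hm', hX'S, hX'rb, hX'8, hlt⟩ := hout V H S X Z
              (fun H' S' hm' => h8 V H' S' hm') hZ hXZ ⟨v, hv, w, hw, hvw⟩ hX8 (by omega)
            have h5 := Finset.card_le_card hX'S
            exact ih (S.card - X'.card) (by omega) H' X' hm' hX'S hX'rb hX'8 rfl
        obtain ⟨-, ⟨f, p, hf, hfv⟩, -⟩ := hst V H S X v w hM1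
        have h4 := hbeta V H S X v w f p hM1 hf hfv
        obtain ⟨C, hCB, hwC, hCS, hC5, hC0⟩ := hc5 V H S X v w f p hM1 hf hfv h4
        exact hfin V H S X C v w f p hM1 hf hfv h4 hCB hwC hCS hC5 hC0
      · push Not at hone
        obtain ⟨v', hv', w', hw', hvw', hne⟩ := hone
        have hvne : v ≠ v' := by
          intro h
          apply hn2
          refine ⟨v, hv, w, hw, w', hw', ?_, hvw, by rw [h]; exact hvw'⟩
          intro h2
          exact hne h.symm h2.symm
        by_cases htwo : ∀ x ∈ X, ∀ z ∈ S \ X, H.r x z = 1 →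
            (x = v ∧ z = w) ∨ (x = v' ∧ z = w')
        · exact hm2 V H S X v v' w w' htop hv hv' hvne hw hw' hvw hvw' htwo
        · push Not at htwo
          obtain ⟨x, hx, z, hz, hxz, hn1, hn3⟩ := htwo
          have hxv : v ≠ x := by
            intro h
            apply hn2
            refine ⟨v, hv, w, hw, z, hz, ?_, hvw, by rw [h]; exact hxz⟩
            intro h2
            exact hn1 h.symm h2.symm
          have hxv' : v' ≠ x := by
            intro h
            apply hn2
            refine ⟨v', hv', w', hw', z, hz, ?_, hvw', by rw [h]; exact hxz⟩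
            intro h2
            exact hn3 h.symm h2.symm
          exact hm3 V H S X v v' x w w' z htop hv hv' hx hvne hxv hxv' hw hw' hz hvw hvw' hxz
  intro Y hYS hYrb
  have h1 := h8 V H S hm Y hYS hYrb
  by_contra h2
  have h3 : hp H Y = 8 := by omega
  exact key _ H Y hm hYS hYrb h3 rfl

theorem rb2_of (ha : S3_t2a) (hb : S3_t2b) (hc : S3_t2c) (hd : S3_t2d) (he : S3_t2e)
    (hf : S3_t2f) (hg : S3_t2g) (hh : S3_t2h) : A3_rb2 := by
  classical
  intro V _ H S hm hr10 hcl5
  by_contra hcon
  push Not at hcon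
  obtain ⟨Y, hY, hYrb, hYlt⟩ := hcon
  obtain ⟨X, hX, hXmin⟩ := Finset.exists_min_image
    (S.powerset.filter (fun X => RB2 H S X)) (fun X => hp H X)
    ⟨Y, by simp [hY, hYrb]⟩
  simp only [Finset.mem_filter, Finset.mem_powerset] at hX hXmin
  obtain ⟨hXS, hXrb⟩ := hX
  have hXY := hXmin Y ⟨hY, hYrb⟩
  obtain ⟨v, hv, y₁, hy₁, y₂, hy₂, hne, hr1, hr2⟩ := hXrb
  have hT : T2 H S X v y₁ y₂ (hp H X) :=
    ⟨hm, hr10, hcl5, hXS, hv, hy₁, hy₂, hne, hr1, hr2, rfl, by omega,
      fun Z hZ hZ2 => hXmin Z ⟨hZ, hZ2⟩⟩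
  have hle : hp H X ≤ 13 := by omega
  by_cases h0 : eo H S X v ≤ 0
  · by_cases hcard : 2 ≤ X.card
    · exact hg V H S X v y₁ y₂ _ hT h0 hcard
    · have hX1 : X = {v} := by
        have h1 : X.card ≤ 1 := by omega
        have := Finset.card_le_one.mp h1
        ext u
        simp only [Finset.mem_singleton]
        exact ⟨fun hu => this u hu v hv, fun hu => hu ▸ hv⟩
      rw [hX1] at hT
      exact hh V H S v y₁ y₂ _ hT
  · push Not at h0
    by_cases h11 : hp H X ≤ 11
    · exact ha V H S X v y₁ y₂ _ hT (by omega) h11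
    · by_cases hbo : 3 ≤ bo H S X v
      · exact hc V H S X v y₁ y₂ _ hT (by omega) (by omega) hbo
      · by_cases heo : 2 ≤ eo H S X v
        · by_cases h12 : hp H X = 12
          · exact hb V H S X v y₁ y₂ _ hT heo h12
          · exact hd V H S X v y₁ y₂ _ hT heo (by omega) (by omega)
        · have heo1 : eo H S X v = 1 := by omega
          have hnn : ∀ x z, 0 ≤ H.r x z + H.m x z := by
            intro x z
            have h1 := hm.ok.r01 x z
            have h2 := hm.ok.m_nn x z
            rcases h1 with h1 | h1 <;> omega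
          have hex : ∃ x ∈ X.erase v, ∃ z ∈ S \ X, H.r x z + H.m x z = 1 := by
            by_contra hno
            push Not at hno
            have hle1 : ∀ x ∈ X.erase v, ∀ z ∈ S \ X, H.r x z + H.m x z ≤ 1 := by
              intro x hx z hz
              have h1 : H.r x z + H.m x z ≤ ∑ z ∈ S \ X, (H.r x z + H.m x z) :=
                Finset.single_le_sum (f := fun z => H.r x z + H.m x z)
                  (fun z _ => hnn x z) hz
              have h2 : ∑ z ∈ S \ X, (H.r x z + H.m x z) ≤ eo H S X v :=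
                Finset.single_le_sum (f := fun x => ∑ z ∈ S \ X, (H.r x z + H.m x z))
                  (fun x _ => Finset.sum_nonneg fun z _ => hnn x z) hx
              omega
            have hz : eo H S X v = 0 := by
              unfold eo
              refine Finset.sum_eq_zero fun x hx => Finset.sum_eq_zero fun z hz => ?_
              have h1 := hno x hx z hz
              have h2 := hle1 x hx z hz
              have h3 := hnn x z
              omega
            omega
          obtain ⟨x, hx, z, hz, hxz⟩ := hex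
          rw [Finset.mem_erase] at hx
          have h1 := hm.ok.r01 x z
          rcases h1 with h1 | h1
          · exact he V H S X v y₁ y₂ _ x z hT (by omega) (by omega) heo1 hx.2 hx.1 hz
              (by omega)
          · exact hf V H S X v y₁ y₂ _ x z hT (by omega) (by omega) heo1 hx.2 hx.1 hz h1

theorem main13_of (hex : S_ex) (hb : S3_base) (h9 : A3_rb9) (h10 : S3_rb10) (hC : S3_clC)
    (h4 : S3_cl4) (h2 : A3_rb2) (hend : S3_end) (hinf : S3_inf) : S3_main13 := by
  refine hinf ?_
  intro V _ _ H S hok hhyp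
  refine hex V P13 ?_ H S hok hhyp
  intro H S hm
  have hr9 := h9 V H S hm
  have hr10 := h10 V H S hm hr9
  have hcl5 : Cl5 H S := cl5_of hb hC h4 V H S hm (fun Y hY hYr => by
    have := hr10 Y hY hYr
    omega)
  exact hend V H S hm hr10 (h2 V H S hm hr10 hcl5)

end Pool.Agent.N436.DF
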