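import Pool.Agent.N436.DF.Stm

/-!
# Project DF, third batch: the case `(d₁, d₂) = (1, 3)`
-/

namespace Pool.Agent.N436.DF

open Finset

/-- the parameters for `(d₁, d₂) = (1, 3)` -/
def P13 : Par where
  j := 1
  k := 3
  a := 5
  b := 3
  d := 2
  D := 12
  hj := by norm_num
  hb := by norm_num
  hd := by norm_num
  hab := by norm_num
  hD2 := by norm_num
  hD1 := by norm_num
  hDa := by norm_num
  hjk := by norm_num

/-- the (undoubled) potential -/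
def hp {V : Type} [DecidableEq V] (H : Hub V) (Y : Finset V) : ℤ := rho P13 H Y / 2

/-- number of real edges between the disjoint sets `X` and `C` -/
def rr {V : Type} (H : Hub V) (X C : Finset V) : ℤ := ∑ x ∈ X, ∑ z ∈ C, H.r x z

/-- number of pair units between the disjoint sets `X` and `C` -/
def mm {V : Type} (H : Hub V) (X C : Finset V) : ℤ := ∑ x ∈ X, ∑ z ∈ C, H.m x z

/-- number of pair units between the vertices of `X` coloured 1 (= `true`) and `C` -/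
def n1 {V : Type} (H : Hub V) (X C : Finset V) (f : V → Bool) : ℤ :=
  ∑ x ∈ X with f x = true, ∑ z ∈ C, H.m x z

/-- reserve `l i v` units of colour `i` at `v` -/
def res {V : Type} (H : Hub V) (l : Bool → V → ℤ) : Hub V where
  c i v := max (-1) (H.c i v - l i v)
  r := H.r
  m := H.m

/-- cost of the reservation `l` on `C` -/
def cost {V : Type} (l : Bool → V → ℤ) (C : Finset V) : ℤ :=
  ∑ z ∈ C, (5 * l true z + 3 * l false z)

/-- saving at the pair `x z` (`x` in the coloured set, `z` outside, `x` has the colour `f x` and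
serves `s x z` units towards `z`) -/
def sv {V : Type} (H : Hub V) (f : V → Bool) (s : V → V → ℤ) (x z : V) : ℤ :=
  (if H.r x z ≤ s x z then (if f x = true then 7 else 9) * H.r x z
    else (if f x = true then 2 else 0)) +
  (if f x = true then 2 * H.m x z + 3 * min (H.m x z) (s x z) else 5 * min (H.m x z) (s x z))

def RBge {V : Type} [DecidableEq V] (H : Hub V) (S : Finset V) (n : ℤ) : Prop :=
  ∀ Y, Y ⊆ S → RB H S Y → n ≤ hp H Y

/-- some vertex of `Y` has two real neighbours in `S \ Y` -/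
def RB2 {V : Type} [DecidableEq V] (H : Hub V) (S Y : Finset V) : Prop :=
  ∃ v ∈ Y, ∃ y₁ ∈ S \ Y, ∃ y₂ ∈ S \ Y, y₁ ≠ y₂ ∧ H.r v y₁ = 1 ∧ H.r v y₂ = 1

/-! ## Tools -/

def S3_base : Prop := ∀ (V : Type) [DecidableEq V] (H : Hub V), Ok P13 H →
  (∀ Y, rho P13 H Y = 2 * hp H Y) ∧
  (∀ X C, Disjoint X C → hp H (X ∪ C) = hp H X + hp H C - 12 * rr H X C - 5 * mm H X C) ∧
  (∀ A B, hp H (A ∪ B) + hp H (A ∩ B) ≤ hp H A + hp H B) ∧
  (∀ v, hp H {v} = 5 * (H.c true v + 1) + 3 * H.c false v) ∧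
  (∀ S, MinCex P13 H S → (∀ Y, Y ⊆ S → Y.Nonempty → -2 ≤ hp H Y) ∧
    (∀ Y, Y ⊆ S → Y.Nonempty → Y ≠ S → hp H S + 5 ≤ hp H Y ∧ 3 ≤ hp H Y))

def S3_res : Prop := ∀ (V : Type) [DecidableEq V] (H : Hub V) (l : Bool → V → ℤ), Ok P13 H →
  (∀ i x, 0 ≤ l i x) →
  Ok P13 (res H l) ∧ (∀ C, hp H C - cost l C ≤ hp (res H l) C) ∧
  (∀ S f p, ColBy (res H l) S f p → ColBy H S f p ∧
    ∀ x ∈ S, load H S f p x + l (f x) x ≤ H.c (f x) x ∧ 0 ≤ load H S f p x)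

/-- colouring a proper subset with reservations -/
def S3_state : Prop := ∀ (V : Type) [DecidableEq V] (H : Hub V) (S X : Finset V)
    (l : Bool → V → ℤ), MinCex P13 H S → X ⊆ S → X ≠ S → (∀ i x, 0 ≤ l i x) →
  (∀ C, C ⊆ X → C.Nonempty → cost l C ≤ hp H C + 2) →
  ∃ f p, ColBy H X f p ∧ ∀ x ∈ X, load H X f p x + l (f x) x ≤ H.c (f x) x ∧
    0 ≤ load H X f p x

/-- gluing two colourings -/
def S3_glue : Prop := ∀ (V : Type) [DecidableEq V] (H : Hub V) (S X : Finset V)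
    (f g : V → Bool) (p q sX sB : V → V → ℤ), Ok P13 H → X ⊆ S →
  ColBy H X f p → ColBy H (S \ X) g q → (∀ x z, 0 ≤ sX x z) → (∀ z x, 0 ≤ sB z x) →
  (∀ x ∈ X, ∀ z ∈ S \ X, f x = g z → H.r x z ≤ sX x z ∧ H.r x z ≤ sB z x) →
  (∀ x ∈ X, ∀ z ∈ S \ X, f x ≠ g z → H.m x z ≤ sX x z + sB z x) →
  (∀ x ∈ X, load H X f p x + ∑ z ∈ S \ X, sX x z ≤ H.c (f x) x) →
  (∀ z ∈ S \ X, load H (S \ X) g q z + ∑ x ∈ X, sB z x ≤ H.c (g z) z) →
  ∃ F P', ColBy H S F P' ∧ (∀ x ∈ X, F x = f x) ∧ (∀ z ∈ S \ X, F z = g z) ∧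
    (∀ x ∈ X, load H S F P' x ≤ load H X f p x + ∑ z ∈ S \ X, sX x z) ∧
    (∀ z ∈ S \ X, load H S F P' z ≤ load H (S \ X) g q z + ∑ x ∈ X, sB z x)

/-- the obstacle to the extension of a colouring of `X` -/
def S3_kill : Prop := ∀ (V : Type) [DecidableEq V] (H : Hub V) (S X : Finset V)
    (f : V → Bool) (p s : V → V → ℤ), MinCex P13 H S → X ⊆ S → X.Nonempty →
  ColBy H X f p → (∀ x z, 0 ≤ s x z) →
  (∀ x ∈ X, load H X f p x + ∑ z ∈ S \ X, s x z ≤ H.c (f x) x) →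
  ∃ C, C ⊆ S \ X ∧ C.Nonempty ∧
    hp H (X ∪ C) + ∑ x ∈ X, ∑ z ∈ C, sv H f s x z ≤ hp H X - 3

/-- the same, the vertex `w` is forced to have the colour 2 (real neighbour `v` coloured 1) and
prepays one of its pair units, `w y` -/
def S3_killP : Prop := ∀ (V : Type) [DecidableEq V] (H : Hub V) (S X : Finset V)
    (f : V → Bool) (p s : V → V → ℤ) (v w y : V), MinCex P13 H S → X ⊆ S →
  ColBy H X f p → (∀ x z, 0 ≤ s x z) →
  (∀ x ∈ X, load H X f p x + ∑ z ∈ S \ X, s x z ≤ H.c (f x) x) →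
  v ∈ X → w ∈ S \ X → H.r v w = 1 → f v = true → s v w = 0 → y ∈ S \ X → y ≠ w → 1 ≤ H.m w y →
  ∃ C, C ⊆ S \ X ∧ C.Nonempty ∧
    hp H (X ∪ C) + ∑ x ∈ X, ∑ z ∈ C, sv H f s x z
      + (if w ∈ C then (if y ∈ C then 2 else -3) else 0) ≤ hp H X - 3

/-- the same, and a real edge `w t` is served in the colour 2 at both ends -/
def S3_killR : Prop := ∀ (V : Type) [DecidableEq V] (H : Hub V) (S X : Finset V)
    (f : V → Bool) (p s : V → V → ℤ) (v w t : V), MinCex P13 H S → X ⊆ S →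
  ColBy H X f p → (∀ x z, 0 ≤ s x z) →
  (∀ x ∈ X, load H X f p x + ∑ z ∈ S \ X, s x z ≤ H.c (f x) x) →
  v ∈ X → w ∈ S \ X → H.r v w = 1 → f v = true → s v w = 0 → t ∈ S \ X → H.r w t = 1 →
  ∃ C, C ⊆ S \ X ∧ C.Nonempty ∧
    hp H (X ∪ C) + ∑ x ∈ X, ∑ z ∈ C, sv H f s x z
      + (if w ∈ C then (if t ∈ C then 6 else -3) else (if t ∈ C then -3 else 0)) ≤ hp H X - 3

/-- a colouring of `X` with service of pair units -/
structure US {V : Type} [DecidableEq V] (H : Hub V) (S X : Finset V) (f : V → Bool)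
    (p s : V → V → ℤ) : Prop where
  col : ColBy H X f p
  nn : ∀ x z, 0 ≤ s x z
  le : ∀ x z, s x z ≤ H.m x z
  cap : ∀ x ∈ X, load H X f p x + ∑ z ∈ S \ X, s x z ≤ H.c (f x) x

/-- two-sided argument: `v w` is the only real edge between `X` and `S \ X`, there is a colouring
of `X` with `v` coloured 1 and one with `v` coloured 2 -/
def S3_two : Prop := ∀ (V : Type) [DecidableEq V] (H : Hub V) (S X : Finset V) (v w : V)
    (f₁ f₂ : V → Bool) (p₁ p₂ s₁ s₂ : V → V → ℤ) (l : Bool → V → ℤ),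
  MinCex P13 H S → X ⊆ S → v ∈ X → w ∈ S \ X →
  (∀ x ∈ X, ∀ z ∈ S \ X, H.r x z = 1 → x = v ∧ z = w) →
  US H S X f₁ p₁ s₁ → US H S X f₂ p₂ s₂ → f₁ v = true → f₂ v = false →
  (∀ i x, 0 ≤ l i x) →
  (∀ z ∈ S \ X, (∑ x ∈ X with f₁ x = true, (H.m x z - s₁ x z) ≤ l false z) ∧
    (∑ x ∈ X with f₁ x = false, (H.m x z - s₁ x z) ≤ l true z) ∧
    (∑ x ∈ X with f₂ x = true, (H.m x z - s₂ x z) ≤ l false z) ∧
    (∑ x ∈ X with f₂ x = false, (H.m x z - s₂ x z) ≤ l true z)) →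
  (∀ C, C ⊆ S \ X → C.Nonempty → cost l C ≤ hp H C + 2) → False

/-! ## Sets with a real boundary edge: 3, ..., 7 -/

def S3_rb5 : Prop := ∀ (V : Type) [DecidableEq V] (H : Hub V) (S : Finset V),
  MinCex P13 H S → RBge H S 5

/-- potential 5, one real boundary edge -/
def S3_rb6a : Prop := ∀ (V : Type) [DecidableEq V] (H : Hub V) (S X : Finset V) (v w : V),
  MinCex P13 H S → RBge H S 5 → X ⊆ S → hp H X = 5 →
  (∀ Y, X ⊂ Y → Y ⊆ S → RB H S Y → 6 ≤ hp H Y) → v ∈ X → w ∈ S \ X → H.r v w = 1 →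
  (∀ x ∈ X, ∀ z ∈ S \ X, H.r x z = 1 → x = v ∧ z = w) → False

/-- potential 5, two real boundary edges -/
def S3_rb6b : Prop := ∀ (V : Type) [DecidableEq V] (H : Hub V) (S X : Finset V) (v w v' w' : V),
  MinCex P13 H S → RBge H S 5 → X ⊆ S → hp H X = 5 →
  (∀ Y, X ⊂ Y → Y ⊆ S → RB H S Y → 6 ≤ hp H Y) → v ∈ X → w ∈ S \ X → H.r v w = 1 →
  v' ∈ X → w' ∈ S \ X → H.r v' w' = 1 → (v, w) ≠ (v', w') → False

def S3_rb8 : Prop := ∀ (V : Type) [DecidableEq V] (H : Hub V) (S : Finset V),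
  MinCex P13 H S → RBge H S 6 → RBge H S 8

/-! ## Closed sets -/

def S3_clA : Prop := ∀ (V : Type) [DecidableEq V] (H : Hub V) (S Z : Finset V)
    (f : V → Bool) (p : V → V → ℤ), MinCex P13 H S → Z ⊆ S → Z.Nonempty → Z ≠ S →
  ¬ RB H S Z → hp H Z ≤ 5 → ColBy H Z f p →
  (∀ x ∈ Z, ∀ q ∈ S \ Z, 1 ≤ H.m x q → H.c (f x) x ≤ load H Z f p x) ∧
  2 * n1 H Z (S \ Z) f ≤ hp H Z - 3 - hp H S

/-- a closed set of potential 3 -/
structure C3 {V : Type} [DecidableEq V] (H : Hub V) (S Z : Finset V) : Prop where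
  mc : MinCex P13 H S
  sub : Z ⊆ S
  ne : Z.Nonempty
  nS : Z ≠ S
  cl : ¬ RB H S Z
  h3 : hp H Z = 3

/-- the boundary of `Z` -/
def bd {V : Type} [DecidableEq V] (H : Hub V) (S Z : Finset V) : Finset V :=
  Z.filter (fun x => 1 ≤ ∑ q ∈ S \ Z, H.m x q)

/-- exactly one boundary vertex has the colour 1, and no boundary vertex serves -/
def S3_clB : Prop := ∀ (V : Type) [DecidableEq V] (H : Hub V) (S Z : Finset V), C3 H S Z →
  hp H S = -2 ∧ (∀ x ∈ bd H S Z, ∑ q ∈ S \ Z, H.m x q = 1) ∧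
  mm H Z (S \ Z) = (bd H S Z).card ∧ hp H (S \ Z) = 5 * (bd H S Z).card - 5 ∧
  2 ≤ (bd H S Z).card ∧
  (∀ x ∈ bd H S Z, ∃ f p, ColBy H Z f p ∧ f x = true ∧ ∀ y ∈ bd H S Z, y ≠ x → f y = false) ∧
  (∀ f p, ColBy H Z f p → (∃ x ∈ bd H S Z, f x = true ∧ ∀ y ∈ bd H S Z, f y = true → y = x) ∧
    ∀ x ∈ bd H S Z, H.c (f x) x ≤ load H Z f p x) ∧
  (∀ C, C ⊆ S \ Z → C.Nonempty → C ≠ S \ Z → 5 * mm H Z C ≤ hp H C)

/-- a set with the exactly-one property gives a non-colourable sparse system -/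
def S3_G : Prop := ∀ (V : Type) [DecidableEq V] [Infinite V] (H : Hub V) (Z T : Finset V),
  Ok P13 H → T ⊆ Z → 2 ≤ T.card → (∀ C, C ⊆ Z → C.Nonempty → 3 ≤ hp H C) →
  (∀ f p, ColBy H Z f p → (∃ x ∈ T, f x = true ∧ ∀ y ∈ T, f y = true → y = x) ∧
    ∀ x ∈ T, H.c (f x) x ≤ load H Z f p x) →
  ∃ (H' : Hub V) (S' : Finset V), Ok P13 H' ∧ Hyp P13 H' S' ∧ ¬ Col H' S' ∧
    eE H' S' = eE H Z

/-- all real edges are inside `Z` -/
def S3_clC : Prop := ∀ (V : Type) [DecidableEq V] [Infinite V] (H : Hub V) (S Z : Finset V),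
  C3 H S Z → ∀ u ∈ S, ∀ w ∈ S, H.r u w = 1 → u ∈ Z

/-- a full vertex outside `Z` -/
def S3_clD : Prop := ∀ (V : Type) [DecidableEq V] [Infinite V] (H : Hub V) (S Z : Finset V),
  C3 H S Z → ∃ q ∈ S \ Z, H.c false q = 0 ∧ 1 ≤ ∑ x ∈ Z, H.m x q ∧
    hp H {q} ≤ 5 * ∑ x ∈ Z, H.m x q ∧ hp H {q} ≤ 10

def S3_cl4 : Prop := ∀ (V : Type) [DecidableEq V] (H : Hub V) (S Z : Finset V),
  MinCex P13 H S → RBge H S 6 → Z ⊆ S → Z.Nonempty → Z ≠ S → ¬ RB H S Z → hp H Z = 4 →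
  ∃ D, D ⊆ Z ∧ C3 H S D

/-- closed sets that miss an end of a real edge -/
def Cl5 {V : Type} [DecidableEq V] (H : Hub V) (S : Finset V) : Prop :=
  ∀ C, C ⊆ S → C.Nonempty → ¬ RB H S C → (∃ u ∈ S \ C, ∃ w ∈ S, H.r u w = 1) → 5 ≤ hp H C

def S3_cl5 : Prop := ∀ (V : Type) [DecidableEq V] [Infinite V] (H : Hub V) (S : Finset V),
  MinCex P13 H S → RBge H S 6 → Cl5 H S

/-- exchange the two boundary vertices `a`, `b` of `Z` in the edges leaving `Z` -/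
def swp {V : Type} [DecidableEq V] (H : Hub V) (Z : Finset V) (a b : V) : Hub V where
  c := H.c
  r := H.r
  m u v := if u ∈ Z ∧ v ∉ Z then H.m (Equiv.swap a b u) v
    else if u ∉ Z ∧ v ∈ Z then H.m u (Equiv.swap a b v) else H.m u v

def S3_swap : Prop := ∀ (V : Type) [DecidableEq V] (H : Hub V) (S Z : Finset V) (a b : V),
  C3 H S Z → a ∈ bd H S Z → b ∈ bd H S Z → C3 (swp H Z a b) S Z ∧
    (∀ Y, Y ⊆ Z → hp (swp H Z a b) Y = hp H Y)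

/-- a set of potential 8 with two units leaving a closed set of potential 3 -/
def S3_out : Prop := ∀ (V : Type) [DecidableEq V] [Infinite V] (H : Hub V) (S X Z : Finset V),
  (∀ (H' : Hub V) (S' : Finset V), MinCex P13 H' S' → RBge H' S' 8) →
  C3 H S Z → X ⊆ Z → RB H S X → hp H X = 8 → 2 ≤ mm H X (S \ Z) →
  ∃ (H' : Hub V) (X' : Finset V), MinCex P13 H' S ∧ X' ⊆ S ∧ RB H' S X' ∧ hp H' X' = 8 ∧
    X.card < X'.card

/-! ## Sets of potential 8 with a real boundary edge -/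

structure Top8 {V : Type} [DecidableEq V] (H : Hub V) (S X : Finset V) : Prop where
  mc : MinCex P13 H S
  rb8 : RBge H S 8
  cl5 : Cl5 H S
  sub : X ⊆ S
  rb : RB H S X
  h8 : hp H X = 8
  max : ∀ Y, X ⊂ Y → Y ⊆ S → RB H S Y → 9 ≤ hp H Y

/-- one vertex with two real boundary edges -/
def S3_m0 : Prop := ∀ (V : Type) [DecidableEq V] (H : Hub V) (S X : Finset V),
  Top8 H S X → ¬ RB2 H S X

/-- at least three real boundary edges -/
def S3_m3 : Prop := ∀ (V : Type) [DecidableEq V] (H : Hub V) (S X : Finset V)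
    (v₁ v₂ v₃ w₁ w₂ w₃ : V), Top8 H S X → v₁ ∈ X → v₂ ∈ X → v₃ ∈ X → v₁ ≠ v₂ → v₁ ≠ v₃ →
  v₂ ≠ v₃ → w₁ ∈ S \ X → w₂ ∈ S \ X → w₃ ∈ S \ X → H.r v₁ w₁ = 1 → H.r v₂ w₂ = 1 →
  H.r v₃ w₃ = 1 → False

/-- exactly two real boundary edges -/
def S3_m2 : Prop := ∀ (V : Type) [DecidableEq V] (H : Hub V) (S X : Finset V)
    (v₁ v₂ w₁ w₂ : V), Top8 H S X → v₁ ∈ X → v₂ ∈ X → v₁ ≠ v₂ → w₁ ∈ S \ X → w₂ ∈ S \ X →
  H.r v₁ w₁ = 1 → H.r v₂ w₂ = 1 →
  (∀ x ∈ X, ∀ z ∈ S \ X, H.r x z = 1 → (x = v₁ ∧ z = w₁) ∨ (x = v₂ ∧ z = w₂)) → False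

/-- exactly one real boundary edge -/
structure M1 {V : Type} [DecidableEq V] (H : Hub V) (S X : Finset V) (v w : V) : Prop where
  top : Top8 H S X
  hv : v ∈ X
  hw : w ∈ S \ X
  hr : H.r v w = 1
  only : ∀ x ∈ X, ∀ z ∈ S \ X, H.r x z = 1 → x = v ∧ z = w
  all : ∀ Z, C3 H S Z → ∀ u ∈ S, ∀ y ∈ S, H.r u y = 1 → u ∈ Z
  out : ∀ Z, C3 H S Z → X ⊆ Z → mm H X (S \ Z) ≤ 1

/-- number of units `x z` except those with `x` coloured 2 and unserved at `x` -/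
def av {V : Type} (H : Hub V) (f : V → Bool) (s : V → V → ℤ) (x z : V) : ℤ :=
  if f x = true then H.m x z else s x z

def S3_m1st : Prop := ∀ (V : Type) [DecidableEq V] (H : Hub V) (S X : Finset V) (v w : V),
  M1 H S X v w →
  (∃ f p, ColBy H X f p ∧ f v = true ∧ ∀ x ∈ X, ∀ z ∈ S \ X, 1 ≤ H.m x z → f x = false) ∧
  (∃ f p, ColBy H X f p ∧ f v = false) ∧
  (∀ u : V → V → ℤ, (∀ x z, 0 ≤ u x z ∧ u x z ≤ H.m x z) →
    ∑ x ∈ X, ∑ z ∈ S \ X, u x z ≤ 2 →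
    ∃ f p s, US H S X f p s ∧ f v = true ∧ ∀ x ∈ X, ∀ z ∈ S \ X, u x z ≤ av H f s x z)

def S3_m1p0 : Prop := ∀ (V : Type) [DecidableEq V] (H : Hub V) (S X : Finset V) (v w : V)
    (f : V → Bool) (p s : V → V → ℤ), M1 H S X v w → US H S X f p s → f v = true →
  ∑ x ∈ X, ∑ z ∈ S \ X, av H f s x z ≤ 2

def S3_m1beta : Prop := ∀ (V : Type) [DecidableEq V] (H : Hub V) (S X : Finset V) (v w : V)
    (f : V → Bool) (p : V → V → ℤ), M1 H S X v w → ColBy H X f p → f v = false →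
  4 ≤ n1 H X (S \ X) f

def S3_m1c5 : Prop := ∀ (V : Type) [DecidableEq V] (H : Hub V) (S X : Finset V) (v w : V)
    (f : V → Bool) (p : V → V → ℤ), M1 H S X v w → ColBy H X f p → f v = false →
  4 ≤ n1 H X (S \ X) f →
  ∃ C, C ⊆ S \ X ∧ w ∈ C ∧ X ∪ C ≠ S ∧ hp H (X ∪ C) = 5 ∧ n1 H X C f = 0

def S3_m1fin : Prop := ∀ (V : Type) [DecidableEq V] (H : Hub V) (S X C : Finset V) (v w : V)
    (f : V → Bool) (p : V → V → ℤ), M1 H S X v w → ColBy H X f p → f v = false →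
  4 ≤ n1 H X (S \ X) f → C ⊆ S \ X → w ∈ C → X ∪ C ≠ S → hp H (X ∪ C) = 5 →
  n1 H X C f = 0 → False

def S3_rb10 : Prop := ∀ (V : Type) [DecidableEq V] (H : Hub V) (S : Finset V),
  MinCex P13 H S → RBge H S 9 → RBge H S 10

/-! ## Sets with two real boundary edges at one vertex -/

structure T2 {V : Type} [DecidableEq V] (H : Hub V) (S X : Finset V) (v y₁ y₂ : V) (ν : ℤ) :
    Prop where
  mc : MinCex P13 H S
  rb10 : RBge H S 10
  cl5 : Cl5 H S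
  sub : X ⊆ S
  hv : v ∈ X
  hy₁ : y₁ ∈ S \ X
  hy₂ : y₂ ∈ S \ X
  ne : y₁ ≠ y₂
  r₁ : H.r v y₁ = 1
  r₂ : H.r v y₂ = 1
  hν : hp H X = ν
  le : ν ≤ 13
  min : ∀ Y, Y ⊆ S → RB2 H S Y → ν ≤ hp H Y

/-- number of boundary edges of `X` not at `v` -/
def eo {V : Type} [DecidableEq V] (H : Hub V) (S X : Finset V) (v : V) : ℤ :=
  ∑ x ∈ X.erase v, ∑ z ∈ S \ X, (H.r x z + H.m x z)

/-- number of boundary edges of `X` at `v` -/
def bo {V : Type} [DecidableEq V] (H : Hub V) (S X : Finset V) (v : V) : ℤ :=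
  ∑ z ∈ S \ X, (H.r v z + H.m v z)

def S3_t2a : Prop := ∀ (V : Type) [DecidableEq V] (H : Hub V) (S X : Finset V) (v y₁ y₂ : V)
    (ν : ℤ), T2 H S X v y₁ y₂ ν → 1 ≤ eo H S X v → ν ≤ 11 → False

def S3_t2b : Prop := ∀ (V : Type) [DecidableEq V] (H : Hub V) (S X : Finset V) (v y₁ y₂ : V)
    (ν : ℤ), T2 H S X v y₁ y₂ ν → 2 ≤ eo H S X v → ν = 12 → False

def S3_t2c : Prop := ∀ (V : Type) [DecidableEq V] (H : Hub V) (S X : Finset V) (v y₁ y₂ : V)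
    (ν : ℤ), T2 H S X v y₁ y₂ ν → 1 ≤ eo H S X v → 12 ≤ ν → 3 ≤ bo H S X v → False

def S3_t2d : Prop := ∀ (V : Type) [DecidableEq V] (H : Hub V) (S X : Finset V) (v y₁ y₂ : V)
    (ν : ℤ), T2 H S X v y₁ y₂ ν → 2 ≤ eo H S X v → ν = 13 → bo H S X v ≤ 2 → False

def S3_t2e : Prop := ∀ (V : Type) [DecidableEq V] (H : Hub V) (S X : Finset V) (v y₁ y₂ : V)
    (ν : ℤ) (x z : V), T2 H S X v y₁ y₂ ν → 12 ≤ ν → bo H S X v ≤ 2 → eo H S X v = 1 → x ∈ X →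
  x ≠ v → z ∈ S \ X → H.m x z = 1 → False

def S3_t2f : Prop := ∀ (V : Type) [DecidableEq V] (H : Hub V) (S X : Finset V) (v y₁ y₂ : V)
    (ν : ℤ) (x z : V), T2 H S X v y₁ y₂ ν → 12 ≤ ν → bo H S X v ≤ 2 → eo H S X v = 1 → x ∈ X →
  x ≠ v → z ∈ S \ X → H.r x z = 1 → False

def S3_t2g : Prop := ∀ (V : Type) [DecidableEq V] (H : Hub V) (S X : Finset V) (v y₁ y₂ : V)
    (ν : ℤ), T2 H S X v y₁ y₂ ν → eo H S X v ≤ 0 → 2 ≤ X.card → False

def S3_t2h : Prop := ∀ (V : Type) [DecidableEq V] (H : Hub V) (S : Finset V) (v y₁ y₂ : V)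
    (ν : ℤ), T2 H S {v} v y₁ y₂ ν → False

/-! ## The end -/

def S3_end : Prop := ∀ (V : Type) [DecidableEq V] (H : Hub V) (S : Finset V),
  MinCex P13 H S → RBge H S 10 → (∀ Y, Y ⊆ S → RB2 H S Y → 14 ≤ hp H Y) → False

def S3_main13 : Prop := ∀ (V : Type) [DecidableEq V] (H : Hub V) (S : Finset V),
  Ok P13 H → Hyp P13 H S → Col H S

def S3_inf : Prop := (∀ (V : Type) [DecidableEq V] [Infinite V] (H : Hub V) (S : Finset V),
  Ok P13 H → Hyp P13 H S → Col H S) → S3_main13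

def S3_graph : Prop := S3_main13 → ∀ (V : Type) [Fintype V] (G : SimpleGraph V),
  Critical 1 3 G → (2 - (5 : ℚ) / 12) * (Fintype.card V : ℚ) + 1 / 4 ≤ (G.edgeSet.ncard : ℚ)

end Pool.Agent.N436.DF
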