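import Pool.Agent.N436.DF.All
import Pool.Agent.N436.DF.All2
import Pool.Agent.N436.DF.Asm3
import Pool.Agent.N693.DF.BaseFin
import Pool.Agent.N832.DF.Res
import Pool.Agent.N164.DF.Glue3
import Pool.Agent.N36.DF.Kill
import Pool.Agent.N680.DF.KillP
import Pool.Agent.N111.DF.KillR
import Pool.Agent.N457.DF.Two3
import Pool.Agent.N711.DF.Rb5
import Pool.Agent.N681.DF.Rb6a
import Pool.Agent.N107.DF.Rb6b
import Pool.Agent.N123.DF.RB
import Pool.Agent.N545.DF.ClA
import Pool.Agent.N796.DF.ClB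
import Pool.Agent.N724.DF.G
import Pool.Agent.N414.DF.ClCD
import Pool.Agent.N671.DF.Swap
import Pool.Agent.N634.DF.Out
import Pool.Agent.N875.DF.M3
import Pool.Agent.N447.DF.M2
import Pool.Agent.N920.DF.M1st
import Pool.Agent.N751.DF.M1p0
import Pool.Agent.N504.DF.M1beta
import Pool.Agent.N100.DF.M1c5
import Pool.Agent.N59.DF.M1fin
import Pool.Agent.N215.DF.T2abc
import Pool.Agent.N58.DF.T2d
import Pool.Agent.N81.DF.T2E
import Pool.Agent.N78.DF.T2f
import Pool.Agent.N833.DF.T2g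
import Pool.Agent.N658.DF.T2h
import Pool.Agent.N818.DF.End3
import Pool.Agent.N600.DF.Inf
import Pool.Agent.N526.DF.Graph3

/-! Assembly of the case `(d₁, d₂) = (1, 3)` of project DF. Co-authors: helpers 693, 832, 164, 36,
680, 111, 457, 711, 681, 107, 123, 545, 796, 724, 414, 671, 634, 875, 447, 920, 751, 504, 100, 59,
215, 58, 81, 78, 833, 658, 818, 600, 526. -/

namespace Pool.Agent.N436.DF

theorem base3_h : S3_base := Pool.Agent.N693.DF.base
theorem res3_h : S3_res := Pool.Agent.N832.DF.Res.res3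
theorem state3_h : S3_state := Pool.Agent.N832.DF.Res.state3 base3_h res3_h
theorem glue3_h : S3_glue := Pool.Agent.N164.DF.glue3
theorem kill3_h : S3_kill := Pool.Agent.N36.DF.kill3 base3_h res3_h glue3_h
theorem killP3_h : S3_killP := Pool.Agent.N680.DF.killP3 base3_h res3_h glue3_h
theorem killR3_h : S3_killR :=
  Pool.Agent.N111.DF.killR3 low_h delr_h trReal_h base3_h res3_h glue3_h
theorem two3_h : S3_two := Pool.Agent.N457.DF.two3 state3_h glue3_h
theorem rb5_h : S3_rb5 :=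
  Pool.Agent.N711.DF.Rb5.rb5 base3_h state3_h kill3_h killP3_h killR3_h glue3_h
theorem rb6a_h : S3_rb6a := Pool.Agent.N681.DF.rb6a base3_h state3_h kill3_h two3_h
theorem rb6b_h : S3_rb6b := Pool.Agent.N107.DF.rb6b base3_h state3_h kill3_h killP3_h killR3_h
theorem rb8'_h : S3_rb8 := Pool.Agent.N123.DF.rb8 base3_h state3_h kill3_h
theorem m0_h : S3_m0 := Pool.Agent.N123.DF.m0 base3_h state3_h kill3_h
theorem rb10_h : S3_rb10 := Pool.Agent.N123.DF.rb10 base3_h state3_h kill3_h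
theorem rb8_h : A3_rb8 := rb8_of rb5_h rb6a_h rb6b_h rb8'_h
theorem clA_h : S3_clA := Pool.Agent.N545.DF.clA base3_h kill3_h
theorem cl4_h : S3_cl4 := Pool.Agent.N545.DF.cl4 base3_h state3_h clA_h
theorem clB_h : S3_clB := Pool.Agent.N796.DF.clB base3_h state3_h clA_h glue3_h
theorem G3_h : S3_G := Pool.Agent.N724.DF.G3 base3_h
theorem clC_h : S3_clC := Pool.Agent.N414.DF.clC base3_h clB_h G3_h
theorem clD_h : S3_clD := Pool.Agent.N414.DF.clD base3_h clB_h clC_h glue3_h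
theorem swap3_h : S3_swap := Pool.Agent.N671.DF.Swap.swap3 base3_h clB_h glue3_h
theorem out3_h : S3_out := Pool.Agent.N634.DF.out3 base3_h clB_h clC_h clD_h swap3_h
theorem m3_h : S3_m3 := Pool.Agent.N875.DF.M3.m3 base3_h state3_h kill3_h killP3_h killR3_h
theorem m2_h : S3_m2 := Pool.Agent.N447.DF.m2 base3_h state3_h kill3_h glue3_h
theorem m1st_h : S3_m1st := Pool.Agent.N920.DF.m1st base3_h state3_h kill3_h
theorem m1p0_h : S3_m1p0 := Pool.Agent.N751.DF.m1p0 base3_h kill3_h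
theorem m1beta_h : S3_m1beta := Pool.Agent.N504.DF.m1beta base3_h m1st_h m1p0_h two3_h
theorem m1c5_h : S3_m1c5 := Pool.Agent.N100.DF.m1c5 base3_h kill3_h cl4_h
theorem m1fin_h : S3_m1fin :=
  Pool.Agent.N59.DF.m1fin base3_h state3_h kill3_h glue3_h m1st_h m1p0_h
theorem rb9_h : A3_rb9 :=
  rb9_of base3_h rb8_h clC_h cl4_h out3_h m0_h m3_h m2_h m1st_h m1beta_h m1c5_h m1fin_h
theorem t2a_h : S3_t2a := Pool.Agent.N215.DF.T2abc.t2a base3_h state3_h kill3_h
theorem t2b_h : S3_t2b := Pool.Agent.N215.DF.T2abc.t2b base3_h state3_h kill3_h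
theorem t2c_h : S3_t2c := Pool.Agent.N215.DF.T2abc.t2c base3_h state3_h kill3_h
theorem t2d_h : S3_t2d := Pool.Agent.N58.DF.t2d base3_h state3_h kill3_h
theorem t2e_h : S3_t2e := Pool.Agent.N81.DF.T2E.t2e base3_h state3_h glue3_h kill3_h
theorem t2f_h : S3_t2f := Pool.Agent.N78.DF.t2f base3_h state3_h glue3_h kill3_h
theorem t2g_h : S3_t2g := Pool.Agent.N833.DF.t2g base3_h state3_h glue3_h kill3_h
theorem t2h_h : S3_t2h := 
  Pool.Agent.N658.DF.T2h.t2h base3_h state3_h res3_h kill3_h glue3_h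
theorem rb2_h : A3_rb2 := rb2_of t2a_h t2b_h t2c_h t2d_h t2e_h t2f_h t2g_h t2h_h
theorem end3_h : S3_end := Pool.Agent.N818.DF.end3 base3_h
theorem inf3_h : S3_inf := Pool.Agent.N600.DF.inf3

/-- Theorem C: for `(d₁, d₂) = (1, 3)` every sparse hub system is colourable. -/
theorem main13_h : S3_main13 :=
  main13_of ex_h base3_h rb9_h rb10_h clC_h cl4_h rb2_h end3_h inf3_h

theorem graph13_h (V : Type) [Fintype V] (G : SimpleGraph V) (hG : Critical 1 3 G) :
    (2 - (5 : ℚ) / 12) * (Fintype.card V : ℚ) + 1 / 4 ≤ (G.edgeSet.ncard : ℚ) :=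
  Pool.Agent.N526.DF.graph3 main13_h V G hG

end Pool.Agent.N436.DF
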