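import Pool.Agent.N436.DF.Stm

namespace Pool.Agent.N436.DF

open Finset

theorem main_of (hex : S_ex) (htop : S_top) (hA : S_caseA) (hB1 : S_B1) (hB2 : S_B2) :
    S_main := by
  intro V _ P H S hr hok hhyp
  refine hex V P ?_ H S hok hhyp
  intro H S hm
  obtain ⟨X, u, w, ht⟩ := htop V P H S hr hm
  by_cases h1 : rho P H X < rho P H S + 2 * P.b + 4 * P.d
  · exact hA V P H S X u w ht h1
  · push Not at h1
    by_cases h2 : ∀ x ∈ X, ∀ v ∈ S \ X, H.r x v = 1 → x = u ∧ v = w
    · refine hB2 V P H S X u w ht h2 ?_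
      have h3 : -(2 * P.b) < rho P H S := by
        refine hm.hyp S (Finset.Subset.refl S) ?_
        exact ⟨w, (Finset.mem_sdiff.mp ht.hw).1⟩
      have h4 := hr.hb2
      linarith
    · push Not at h2
      obtain ⟨x, hx, v, hv, hxv, hne⟩ := h2
      refine hB1 V P H S X u w x v ht h1 hx hv hxv ?_
      intro he
      simp only [Prod.mk.injEq] at he
      exact hne he.1 he.2

end Pool.Agent.N436.DF
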