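import Pool.Agent.N436.DF.Stm2
import Pool.Agent.N436.DF.All

namespace Pool.Agent.N436.DF

open Finset

theorem kl_of (ha : S_KLa) (hb : S_KLb) (hc : S_KLc) (hd : S_KLd) (he : S_KLe) : S_KL := by
  intro V _ P
  suffices h : ∀ (n : ℕ) (H : Hub V) (T : Finset V) (w : V) (θ : V → ℤ) (s δ : ℤ),
      St P H T w θ s δ → IHs P H T w → (∑ v ∈ T, H.m w v).toNat ≤ n → Col H (insert w T) by
    intro H T w θ s δ hs hi
    exact h _ H T w θ s δ hs hi le_rfl
  intro n
  induction n with
  | zero =>
    intro H T w θ s δ hs hi hn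
    by_cases h0 : δ < 0
    · exact hi H (insert w T) hs.ok rfl (Finset.Subset.refl _) (ha V P H T w θ s δ hs h0)
    · push Not at h0
      refine hb V P H T w θ s δ hs hi h0 ?_
      have h1 : ∑ v ∈ T, H.m w v ≤ 0 := by
        have := Int.toNat_eq_zero.mp (Nat.le_zero.mp hn)
        exact this
      have h2 := hs.hδ
      have h3 := P.hd
      by_contra hcon
      push Not at hcon
      have h4 : s + 1 ≤ 0 := by omega
      nlinarith
  | succ n ih =>
    intro H T w θ s δ hs hi hn
    by_cases h0 : δ < 0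
    · exact hi H (insert w T) hs.ok rfl (Finset.Subset.refl _) (ha V P H T w θ s δ hs h0)
    push Not at h0
    by_cases h1 : ∑ v ∈ T, H.m w v ≤ s
    · exact hb V P H T w θ s δ hs hi h0 h1
    push Not at h1
    obtain ⟨q, hq, hmq, halive⟩ := hc V P H T w θ s δ hs h0 (by omega)
    by_cases hcq : H.c true q = -1
    · exact hd V P H T w θ s δ q hs hi hq hmq hcq
    have hcq' : 0 ≤ H.c true q := by
      have := hs.ok.c_ge true q
      omega
    obtain ⟨H', T', θ', s', δ', hs', hT', hr, hlt, hcol⟩ :=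
      he V P H T w θ s δ q hs hi hq hmq hcq' halive
    refine hcol (ih H' T' w θ' s' δ' hs' ?_ ?_)
    · intro H'' S'' hok hr'' hsub hhyp
      exact hi H'' S'' hok (hr''.trans hr) (hsub.trans (Finset.insert_subset_insert w hT')) hhyp
    · omega

theorem fin2_of (hbase : S_base2) (hsmall : S_small2) (hforce : S_force12) (hkl : S_KL)
    (hkc : S_killCol) (hkr : S_killRho) : S_fin2 := by
  intro V _ P H S X u w ht
  by_cases h1 : S \ X = {w}
  · exact hsmall V P H S X u w ht h1
  obtain ⟨f, p, hf, hfu⟩ := hforce V P H S X u w u w true ht ht.hu ht.hw (Or.inl ht.huw)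
  obtain ⟨s, δ, hst⟩ := hbase V P H S X u w f p ht h1 hf hfu
  have hins : insert w ((S \ X).erase w) = S \ X := Finset.insert_erase ht.hw
  have hok : Ok P H := ht.mc.ok
  have hcol : Col (kill H X f) (insert w ((S \ X).erase w)) := by
    refine hkl V P _ _ w _ s δ hst ?_
    intro H' S' hok' hr' hsub' hhyp'
    refine ht.mc.ih1 H' S' hok' hhyp' ?_
    have hrr : H'.r = H.r := hr'
    rw [hins] at hsub'
    -- the edge `u w` is lost
    have hwS : w ∈ S := (Finset.mem_sdiff.mp ht.hw).1
    have huS : u ∈ S := ht.sub ht.hu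
    have huS' : u ∉ S' := fun h => (Finset.mem_sdiff.mp (hsub' h)).2 ht.hu
    have hsubS : S' ⊆ S := fun x hx => (Finset.mem_sdiff.mp (hsub' hx)).1
    have hrnn : ∀ x y, 0 ≤ H.r x y := by
      intro x y
      rcases hok.r01 x y with h | h <;> omega
    unfold eE
    rw [hrr]
    have e1 : ∑ x ∈ S', ∑ y ∈ S', H.r x y ≤ ∑ x ∈ S', ∑ y ∈ S, H.r x y :=
      Finset.sum_le_sum fun x _ =>
        Finset.sum_le_sum_of_subset_of_nonneg hsubS (fun y _ _ => hrnn x y)
    have e2 : ∑ x ∈ S', ∑ y ∈ S, H.r x y < ∑ x ∈ S, ∑ y ∈ S, H.r x y := by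
      refine Finset.sum_lt_sum_of_subset hsubS huS huS' ?_ ?_
      · have : H.r u w ≤ ∑ y ∈ S, H.r u y :=
          Finset.single_le_sum (f := fun y => H.r u y) (fun y _ => hrnn u y) hwS
        have h2 := ht.huw
        omega
      · intro j _ _
        exact Finset.sum_nonneg fun y _ => hrnn j y
    exact lt_of_le_of_lt e1 e2
  rw [hins] at hcol
  obtain ⟨f', p', hf', _⟩ := hkc V P H S X f p hok ht.sub hf hcol
  exact ht.mc.ncol ⟨f', p', hf'⟩

theorem main2_of (hex : S_ex) (htop : S_top2) (hfin : S_fin2) : S_main2 := by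
  intro V _ P H S hr hok hhyp
  refine hex V P ?_ H S hok hhyp
  intro H S hm
  obtain ⟨X, u, w, ht⟩ := htop V P H S hr hm
  exact hfin V P H S X u w ht

end Pool.Agent.N436.DF
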