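import Mathlib

/-!
# Hub systems for defective 2-colourings (project DF, helper436, page MP_4006b4_co)

`true` is the colour 1 (defect `d₁ = j`), `false` is the colour 2 (defect `d₂ = k`).
A hub system on a finite active set `S ⊆ V` has
* capacities `c true v ≤ j`, `c false v ≤ k`, all `≥ -1` (`-1`: colour not allowed),
* real edges `r u v ∈ {0,1}` (an edge whose ends have the same colour costs one unit at both ends),
* pair edges `m u v ≥ 0` (if the ends have different colours, the `m u v` units are to be paid by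
  the two ends; if they have the same colour, nothing is to be paid).
-/

namespace Pool.Agent.N436.DF

open Finset

/-- Numerical parameters: `j = d₁`, `k = d₂`, `a = k+2`, `b = j+2`, `d = k-j`, `D = (j+2)(k+1)`
(facts valid for all `1 ≤ j < k`). -/
structure Par where
  (j k a b d D : ℤ)
  hj : 1 ≤ j
  hb : 3 ≤ b
  hd : 1 ≤ d
  hab : a = b + d
  hD2 : b * (k + 1) = D
  hD1 : a * (j + 1) = D - d
  hDa : 2 * a ≤ D
  hjk : j < k

/-- The range `j ≥ 2`, `2k ≥ 3j+2`. -/
structure Rng (P : Par) : Prop where
  hsoft : 2 * (P.a + P.b) ≤ P.D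
  ha3 : P.a ≤ 3 * P.d
  hb2 : P.b ≤ 2 * P.d

/-- potential of one unit of capacity of colour `i` -/
def kap (P : Par) (i : Bool) : ℤ := if i then P.a else P.b

/-- A hub system. -/
structure Hub (V : Type) where
  c : Bool → V → ℤ
  r : V → V → ℤ
  m : V → V → ℤ

variable {V : Type}

structure Ok (P : Par) (H : Hub V) : Prop where
  c_ge : ∀ i v, -1 ≤ H.c i v
  c1_le : ∀ v, H.c true v ≤ P.j
  c2_le : ∀ v, H.c false v ≤ P.k
  r01 : ∀ u v, H.r u v = 0 ∨ H.r u v = 1
  rsymm : ∀ u v, H.r u v = H.r v u
  r0 : ∀ v, H.r v v = 0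
  m_nn : ∀ u v, 0 ≤ H.m u v
  msymm : ∀ u v, H.m u v = H.m v u
  m0 : ∀ v, H.m v v = 0

variable [DecidableEq V]

/-- load of `u` for the colouring `f` with payments `p` (`p u v`: units of the pair edge `uv` paid
by `u`). -/
def load (H : Hub V) (S : Finset V) (f : V → Bool) (p : V → V → ℤ) (u : V) : ℤ :=
  ∑ v ∈ S, if f u = f v then H.r u v else p u v

structure ColBy (H : Hub V) (S : Finset V) (f : V → Bool) (p : V → V → ℤ) : Prop where
  nn : ∀ u v, 0 ≤ p u v
  pay : ∀ u ∈ S, ∀ v ∈ S, f u ≠ f v → H.m u v ≤ p u v + p v u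
  cap : ∀ u ∈ S, load H S f p u ≤ H.c (f u) u

def Col (H : Hub V) (S : Finset V) : Prop := ∃ f p, ColBy H S f p

def wt (P : Par) (H : Hub V) (v : V) : ℤ := P.a * (H.c true v + 1) + P.b * H.c false v

def ew (P : Par) (H : Hub V) (u v : V) : ℤ := P.D * H.r u v + P.a * H.m u v

/-- twice the (scaled) potential of `X` -/
def rho (P : Par) (H : Hub V) (X : Finset V) : ℤ :=
  2 * ∑ v ∈ X, wt P H v - ∑ u ∈ X, ∑ v ∈ X, ew P H u v

/-- the sparseness hypothesis -/
def Hyp (P : Par) (H : Hub V) (S : Finset V) : Prop :=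
  ∀ X, X ⊆ S → X.Nonempty → -(2 * P.b) < rho P H X

/-- twice the number of real edges inside `S` -/
def eE (H : Hub V) (S : Finset V) : ℤ := ∑ u ∈ S, ∑ v ∈ S, H.r u v

/-- twice the number of pair units inside `S` -/
def eM (H : Hub V) (S : Finset V) : ℤ := ∑ u ∈ S, ∑ v ∈ S, H.m u v

/-- `(H, S)` is a minimal counterexample to `Hyp → Col` (for the lexicographic order on
(number of real edges, number of vertices, number of pair units)). -/
structure MinCex (P : Par) (H : Hub V) (S : Finset V) : Prop where
  ok : Ok P H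
  hyp : Hyp P H S
  ncol : ¬ Col H S
  ih1 : ∀ (H' : Hub V) S', Ok P H' → Hyp P H' S' → eE H' S' < eE H S → Col H' S'
  ih2 : ∀ (H' : Hub V) S', Ok P H' → Hyp P H' S' → eE H' S' ≤ eE H S → S'.card < S.card →
    Col H' S'
  ih3 : ∀ (H' : Hub V) S', Ok P H' → Hyp P H' S' → eE H' S' ≤ eE H S → S'.card ≤ S.card →
    eM H' S' < eM H S → Col H' S'

/-- number of real edges from `v` to vertices of `X` coloured `i` -/
def nr (H : Hub V) (X : Finset V) (f : V → Bool) (i : Bool) (v : V) : ℤ :=
  ∑ x ∈ X with f x = i, H.r x v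

/-- number of pair units between `v` and vertices of `X` coloured `i` -/
def pr (H : Hub V) (X : Finset V) (f : V → Bool) (i : Bool) (v : V) : ℤ :=
  ∑ x ∈ X with f x = i, H.m x v

/-- The system that remains when `X` has been coloured by `f`: every vertex `v` outside `X` pays
all the pair units between `v` and `X`, and a colour `i` is forbidden for `v` when `v` has a real
neighbour in `X` coloured `i`. -/
def kill (H : Hub V) (X : Finset V) (f : V → Bool) : Hub V where
  c i v := if 0 < nr H X f i v then -1 else max (-1) (H.c i v - pr H X f (!i) v)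
  r := H.r
  m := H.m

/-- the potential saved at `v` -/
def sav (P : Par) (H : Hub V) (X : Finset V) (f : V → Bool) (v : V) : ℤ :=
  ∑ x ∈ X, ew P H x v - (wt P H v - wt P (kill H X f) v)

/-- number of units (real edges and pair units) between `v` and vertices of `X` coloured 1 -/
def t1 (H : Hub V) (X : Finset V) (f : V → Bool) (v : V) : ℤ := nr H X f true v + pr H X f true v

/-- lower the capacity of colour `i` at `x` by one -/
def low (H : Hub V) (i : Bool) (x : V) : Hub V where
  c i' v := if i' = i ∧ v = x then max (-1) (H.c i' v - 1) else H.c i' v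
  r := H.r
  m := H.m

/-- delete the real edge `xy` -/
def delr (H : Hub V) (x y : V) : Hub V where
  c := H.c
  r u v := if (u = x ∧ v = y) ∨ (u = y ∧ v = x) then 0 else H.r u v
  m := H.m

/-- add `t` pair units between `x` and `y` (`t = -1`: delete one unit) -/
def addm (H : Hub V) (t : ℤ) (x y : V) : Hub V where
  c := H.c
  r := H.r
  m u v := if (u = x ∧ v = y) ∨ (u = y ∧ v = x) then H.m u v + t else H.m u v

/-- an edge (real or pair) between `x` and `v` -/
def Adj (H : Hub V) (x v : V) : Prop := H.r x v = 1 ∨ 1 ≤ H.m x v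

end Pool.Agent.N436.DF
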